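import Pool.Agent.V5helper68.CS.Asm
import Pool.Agent.V5helper81.CS.D1
import Pool.Agent.V5helper9.CS.G1

set_option autoImplicit false

namespace Pool.Agent.V5helper68.CS

theorem allMG : JobMG :=
  asm (V5helper81.CS.jobD1 V5helper9.CS.jobA2 V5helper9.CS.jobA3 V5helper9.CS.jobA4)
    V5helper9.CS.jobG1

/-- There is an infinite-dimensional twisted Hilbert space without complex structure. -/
theorem noComplexStructure :
    ∃ (X : Type) (_ : NormedAddCommGroup X) (_ : NormedSpace ℝ X) (_ : CompleteSpace X)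
      (Y : Submodule ℝ X),
      IsClosed (Y : Set X) ∧
      ¬ FiniteDimensional ℝ X ∧
      (∃ (H : Type) (_ : NormedAddCommGroup H) (_ : InnerProductSpace ℝ H) (_ : CompleteSpace H),
        Nonempty (Y ≃L[ℝ] H)) ∧
      (∃ (H' : Type) (_ : NormedAddCommGroup H') (_ : InnerProductSpace ℝ H') (_ : CompleteSpace H'),
        Nonempty ((X ⧸ Y) ≃L[ℝ] H')) ∧
      ¬ ∃ J : X →L[ℝ] X, J.comp J = -(ContinuousLinearMap.id ℝ X) :=
  final asm3 asm1 asm2 allMG

end Pool.Agent.V5helper68.CS
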