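import Pool.Agent.V5helper68.CS.Jobs

set_option autoImplicit false

open scoped RealInnerProductSpace
open Finset

namespace Pool.Agent.V5helper68.CS

/-- tent of height `β` centred at `(2r+1)β` -/
noncomputable def tent (β : ℝ) (r : ℕ) (t : ℝ) : ℝ := max 0 (β - |t - (2 * r + 1) * β|)

theorem tent_lip (β : ℝ) (r : ℕ) (t u : ℝ) : |tent β r t - tent β r u| ≤ |t - u| := by
  rw [tent, tent]
  refine (abs_max_sub_max_le_max _ _ _ _).trans ?_
  rw [sub_self, abs_zero]
  refine max_le (abs_nonneg _) ?_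
  have h : β - |t - (2 * r + 1) * β| - (β - |u - (2 * r + 1) * β|) =
      |u - (2 * r + 1) * β| - |t - (2 * r + 1) * β| := by ring
  rw [h]
  refine (abs_abs_sub_abs_le _ _).trans ?_
  have h2 : u - (2 * r + 1) * β - (t - (2 * r + 1) * β) = -(t - u) := by ring
  rw [h2, abs_neg]

theorem tent_unique (β : ℝ) (hβ : 0 < β) (t : ℝ) (r r' : ℕ) (h : tent β r t ≠ 0)
    (h' : tent β r' t ≠ 0) : r = r' := by
  have h1 : |t - (2 * r + 1) * β| < β := by
    by_contra hc
    apply h
    rw [tent]; exact max_eq_left (by linarith)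
  have h2 : |t - (2 * r' + 1) * β| < β := by
    by_contra hc
    apply h'
    rw [tent]; exact max_eq_left (by linarith)
  rw [abs_lt] at h1 h2
  have h3 : (2 * (r' : ℝ) - 2 * r) * β < 2 * β := by linarith
  have h4 : (2 * (r : ℝ) - 2 * r') * β < 2 * β := by linarith
  have h5 : (2 * (r' : ℝ) - 2 * r) < 2 := lt_of_mul_lt_mul_right h3 hβ.le
  have h6 : (2 * (r : ℝ) - 2 * r') < 2 := lt_of_mul_lt_mul_right h4 hβ.le
  have h7 : (r' : ℝ) < r + 1 := by linarith
  have h8 : (r : ℝ) < r' + 1 := by linarith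
  have h9 : r' < r + 1 := by exact_mod_cast h7
  have h10 : r < r' + 1 := by exact_mod_cast h8
  omega

theorem tent_sum (β : ℝ) (hβ : 0 < β) (n : ℕ) (t u : ℝ) :
    ∑ r ∈ range n, |tent β r t - tent β r u| ≤ 2 * |t - u| := by
  set A := (range n).filter fun r => tent β r t ≠ 0 with hA
  set B := (range n).filter fun r => tent β r u ≠ 0 with hB
  have hAc : A.card ≤ 1 := Finset.card_le_one.mpr fun a ha b hb =>
    tent_unique β hβ t a b (Finset.mem_filter.mp ha).2 (Finset.mem_filter.mp hb).2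
  have hBc : B.card ≤ 1 := Finset.card_le_one.mpr fun a ha b hb =>
    tent_unique β hβ u a b (Finset.mem_filter.mp ha).2 (Finset.mem_filter.mp hb).2
  have hsub : A ∪ B ⊆ range n := Finset.union_subset (Finset.filter_subset _ _)
    (Finset.filter_subset _ _)
  rw [← Finset.sum_subset hsub]
  · calc ∑ r ∈ A ∪ B, |tent β r t - tent β r u| ≤ ∑ r ∈ A ∪ B, |t - u| :=
          Finset.sum_le_sum fun r _ => tent_lip β r t u
      _ = (A ∪ B).card * |t - u| := by rw [Finset.sum_const, nsmul_eq_mul]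
      _ ≤ 2 * |t - u| := by
          apply mul_le_mul_of_nonneg_right _ (abs_nonneg _)
          have := Finset.card_union_le A B
          exact_mod_cast (by omega : (A ∪ B).card ≤ 2)
  · intro r hr hr2
    rw [Finset.mem_union, not_or] at hr2
    have h1 : tent β r t = 0 := by
      by_contra h
      exact hr2.1 (Finset.mem_filter.mpr ⟨hr, h⟩)
    have h2 : tent β r u = 0 := by
      by_contra h
      exact hr2.2 (Finset.mem_filter.mpr ⟨hr, h⟩)
    rw [h1, h2, sub_self, abs_zero]

/-- value of the tents at the points `jβ` -/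
theorem tent_even (β : ℝ) (hβ : 0 < β) (r m : ℕ) : tent β r ((2 * m : ℕ) * β) = 0 := by
  rw [tent]
  apply max_eq_left
  have h1 : ((2 * m : ℕ) : ℝ) * β - (2 * r + 1) * β = (2 * (m : ℝ) - 2 * r - 1) * β := by
    push_cast; ring
  rw [h1, abs_mul, abs_of_pos hβ]
  have h2 : (1 : ℝ) ≤ |2 * (m : ℝ) - 2 * r - 1| := by
    have h3 : (2 * (m : ℝ) - 2 * r - 1) = ((2 * (m : ℤ) - 2 * r - 1 : ℤ) : ℝ) := by push_cast; ring
    rw [h3, ← Int.cast_abs]
    have h4 : (1 : ℤ) ≤ |2 * (m : ℤ) - 2 * r - 1| := by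
      apply Int.one_le_abs
      omega
    exact_mod_cast h4
  nlinarith

theorem tent_odd (β : ℝ) (hβ : 0 < β) (r m : ℕ) :
    tent β r ((2 * m + 1 : ℕ) * β) = if r = m then β else 0 := by
  split_ifs with h
  · subst h
    rw [tent]
    have h1 : ((2 * r + 1 : ℕ) : ℝ) * β - (2 * r + 1) * β = 0 := by push_cast; ring
    rw [h1, abs_zero, sub_zero]
    exact max_eq_right hβ.le
  · rw [tent]
    apply max_eq_left
    have h1 : ((2 * m + 1 : ℕ) : ℝ) * β - (2 * r + 1) * β = (2 * (m : ℝ) - 2 * r) * β := by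
      push_cast; ring
    rw [h1, abs_mul, abs_of_pos hβ]
    have h2 : (1 : ℝ) ≤ |2 * (m : ℝ) - 2 * r| := by
      have h3 : (2 * (m : ℝ) - 2 * r) = ((2 * (m : ℤ) - 2 * r : ℤ) : ℝ) := by push_cast; ring
      rw [h3, ← Int.cast_abs]
      have h4 : (1 : ℤ) ≤ |2 * (m : ℤ) - 2 * r| := by
        apply Int.one_le_abs
        omega
      exact_mod_cast h4
    nlinarith

variable {V : Type} [NormedAddCommGroup V] [InnerProductSpace ℝ V]

/-- the curve -/
noncomputable def curve {M : ℕ} (η β : ℝ) (n : ℕ) (e₀ : V) (e : Fin M → V) (s : ℕ → Fin M)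
    (t : ℝ) : V :=
  (η * t) • e₀ + ∑ r ∈ range n, (η * tent β r t) • e (s r)

theorem curve_lip {M : ℕ} (η β : ℝ) (hη : 0 < η) (hβ : 0 < β) (n : ℕ) (e₀ : V) (e : Fin M → V)
    (h0 : ‖e₀‖ = 1) (he : ∀ i, ‖e i‖ = 1) (s : ℕ → Fin M) (t u : ℝ) :
    ‖curve η β n e₀ e s t - curve η β n e₀ e s u‖ ≤ 3 * η * |t - u| := by
  have h1 : curve η β n e₀ e s t - curve η β n e₀ e s u = (η * (t - u)) • e₀ +
      ∑ r ∈ range n, (η * (tent β r t - tent β r u)) • e (s r) := by
    rw [curve, curve]
    have : ∑ r ∈ range n, (η * (tent β r t - tent β r u)) • e (s r) =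
        ∑ r ∈ range n, (η * tent β r t) • e (s r) -
          ∑ r ∈ range n, (η * tent β r u) • e (s r) := by
      rw [← Finset.sum_sub_distrib]
      refine Finset.sum_congr rfl fun r _ => ?_
      rw [← sub_smul, mul_sub]
    rw [this, mul_sub, sub_smul]
    abel
  rw [h1]
  refine (norm_add_le _ _).trans ?_
  have h2 : ‖(η * (t - u)) • e₀‖ = η * |t - u| := by
    rw [norm_smul, h0, mul_one, Real.norm_eq_abs, abs_mul, abs_of_pos hη]
  have h3 : ‖∑ r ∈ range n, (η * (tent β r t - tent β r u)) • e (s r)‖ ≤ η * (2 * |t - u|) := by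
    refine (norm_sum_le _ _).trans ?_
    calc ∑ r ∈ range n, ‖(η * (tent β r t - tent β r u)) • e (s r)‖
        = ∑ r ∈ range n, η * |tent β r t - tent β r u| := by
          refine Finset.sum_congr rfl fun r _ => ?_
          rw [norm_smul, he, mul_one, Real.norm_eq_abs, abs_mul, abs_of_pos hη]
      _ = η * ∑ r ∈ range n, |tent β r t - tent β r u| := by rw [Finset.mul_sum]
      _ ≤ η * (2 * |t - u|) := mul_le_mul_of_nonneg_left (tent_sum β hβ n t u) hη.le
  rw [h2]
  linarith

theorem curve_inn {M : ℕ} (η β : ℝ) (n : ℕ) (e₀ : V) (e : Fin M → V)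
    (h0 : ‖e₀‖ = 1) (he : ∀ i, ⟪e₀, e i⟫ = 0) (s : ℕ → Fin M) (t : ℝ) :
    ⟪e₀, curve η β n e₀ e s t⟫ = η * t := by
  rw [curve, inner_add_right, real_inner_smul_right, real_inner_self_eq_norm_sq, h0, inner_sum]
  simp [real_inner_smul_right, he]

theorem curve_val {M : ℕ} (η β : ℝ) (hβ : 0 < β) (n : ℕ) (e₀ : V) (e : Fin M → V)
    (s : ℕ → Fin M) (j : ℕ) (hj : j ≤ 2 * n) :
    curve η β n e₀ e s (j * β) = pv (η * β) e₀ e s j := by
  rw [curve, pv]
  congr 1
  · congr 1; ring
  · rcases Nat.even_or_odd' j with ⟨m, rfl | rfl⟩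
    · rw [if_neg (by simp)]
      refine Finset.sum_eq_zero fun r _ => ?_
      rw [tent_even β hβ, mul_zero, zero_smul]
    · rw [if_pos (by simp)]
      have hm : m < n := by omega
      rw [Finset.sum_eq_single m]
      · rw [tent_odd β hβ, if_pos rfl]
        congr 3
        omega
      · intro r _ hr
        rw [tent_odd β hβ, if_neg hr, mul_zero, zero_smul]
      · intro h; exact absurd (Finset.mem_range.mpr hm) h

theorem jobC : JobC := by
  intro κ l M η hκ hl hη hη3 s
  set β : ℝ := Real.log κ / 2 with hβd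
  have hκR : (1 : ℝ) < κ := by exact_mod_cast (show 1 < κ by omega)
  have hβ : 0 < β := by rw [hβd]; have := Real.log_pos hκR; positivity
  have hn0 : ‖(EuclideanSpace.single none 1 : EuclideanSpace ℝ (Option (Fin M)))‖ = 1 := by simp
  have hns : ∀ i, ‖(EuclideanSpace.single (some i) 1 : EuclideanSpace ℝ (Option (Fin M)))‖ = 1 := by
    intro i; simp
  have ho : ∀ i : Fin M, ⟪(EuclideanSpace.single none 1 : EuclideanSpace ℝ (Option (Fin M))),
      EuclideanSpace.single (some i) 1⟫ = 0 := by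
    intro i; simp [EuclideanSpace.inner_single_left]
  have hval : ∀ q, ∀ j ≤ 8 * l, curve η β (4 * l)
      (EuclideanSpace.single none 1 : EuclideanSpace ℝ (Option (Fin M)))
      (fun i => EuclideanSpace.single (some i) 1) (s q) (j * β) =
      pv (η * β) (EuclideanSpace.single none 1)
        (fun i => EuclideanSpace.single (some i) 1) (s q) j := fun q j hj =>
    curve_val η β hβ (4 * l) _ _ (s q) j (by omega)
  refine ⟨{ φ := fun q => curve η β (4 * l) (EuclideanSpace.single none 1)
              (fun i => EuclideanSpace.single (some i) 1) (s q)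
            c := 3 * η
            η := η
            e₀ := EuclideanSpace.single none 1
            c0 := by positivity
            c1 := by linarith
            η0 := hη
            zero := fun q => ?_
            lip := fun q t u => curve_lip η β hη hβ (4 * l) _ _ hn0 hns (s q) t u
            ne0 := hn0
            inn := fun q t => curve_inn η β (4 * l) _ _ hn0 ho (s q) t
            top := fun q => ?_ }, rfl, rfl, rfl, hval⟩
  · have := hval q 0 (by omega)
    simpa [pv] using this
  · have h1 : Real.log (Fintype.card (Fin (κ ^ (8 * l)))) / 2 = ((8 * l : ℕ) : ℝ) * β := by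
      rw [Fintype.card_fin]
      push_cast
      rw [Real.log_pow, hβd]
      push_cast
      ring
    rw [h1, hval q (8 * l) le_rfl, pv,
      if_neg (Nat.not_odd_iff_even.mpr ⟨4 * l, by ring⟩), add_zero]
    congr 1; ring

end Pool.Agent.V5helper68.CS
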