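import Pool.Agent.V5helper68.CS.Jobs

set_option autoImplicit false

open scoped RealInnerProductSpace
open Finset

namespace Pool.Agent.V5helper68.CS

theorem av_le {Ω : Type} [Fintype Ω] [Nonempty Ω] {F : Ω → ℝ} {C : ℝ} (h : ∀ ω, F ω ≤ C) :
    av F ≤ C := by
  rw [av, div_le_iff₀ (by exact_mod_cast Fintype.card_pos)]
  calc ∑ ω, F ω ≤ ∑ _ω : Ω, C := Finset.sum_le_sum fun ω _ => h ω
    _ = C * Fintype.card Ω := by rw [Finset.sum_const, nsmul_eq_mul, Finset.card_univ]; ring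

theorem sg_sq (b : Bool) : sg b * sg b = 1 := by
  cases b <;> simp [sg]

theorem abs_sg (b : Bool) : |sg b| = 1 := by
  cases b <;> simp [sg]

variable {I V : Type} [Fintype I] [DecidableEq I] [NormedAddCommGroup V] [InnerProductSpace ℝ V]

theorem sgv_apply (Q : Finset I) (ε : I → Bool) (q : I) :
    sgv Q ε q = if q ∈ Q then sg (ε q) else 0 := rfl

theorem sgv_eq_sum (Q : Finset I) (ε : I → Bool) : sgv Q ε = ∑ q ∈ Q, sg (ε q) • eb q := by
  ext p
  rw [sgv_apply]
  have : (∑ q ∈ Q, sg (ε q) • eb q : HH I) p = ∑ q ∈ Q, (sg (ε q) • eb q : HH I) p := by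
    exact map_sum (EuclideanSpace.projₗ (𝕜 := ℝ) p) _ _
  rw [this]
  simp only [PiLp.smul_apply, eb, EuclideanSpace.single_apply, smul_eq_mul, mul_ite, mul_one,
    mul_zero]
  rw [Finset.sum_ite_eq]

theorem norm_sgv (Q : Finset I) (ε : I → Bool) : ‖sgv Q ε‖ = Real.sqrt Q.card := by
  rw [EuclideanSpace.norm_eq]
  congr 1
  simp only [sgv_apply, Real.norm_eq_abs, sq_abs]
  rw [← Finset.sum_subset (Finset.subset_univ Q) (fun q _ hq => by rw [if_neg hq]; simp)]
  rw [Finset.sum_congr rfl (fun q hq => by rw [if_pos hq, sq, sg_sq] : ∀ q ∈ Q, _ = (1 : ℝ))]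
  simp

/-- choosing a subset with large average -/
theorem subset_avg (Q : Finset I) (f : I → ℝ) (a : ℕ) (ha : a ≤ Q.card) :
    ∃ A ⊆ Q, A.card = a ∧ (a : ℝ) * ∑ q ∈ Q, f q ≤ Q.card * ∑ q ∈ A, f q := by
  obtain ⟨d, hd⟩ := Nat.exists_eq_add_of_le ha
  induction d generalizing Q with
  | zero => exact ⟨Q, Finset.Subset.refl _, by omega, by rw [hd]; simp⟩
  | succ d ih =>
    have hne : Q.Nonempty := by rw [← Finset.card_pos]; omega
    obtain ⟨m, hm, hmin⟩ := Finset.exists_min_image Q f hne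
    have hc : (Q.erase m).card = a + d := by rw [Finset.card_erase_of_mem hm]; omega
    obtain ⟨A, hA1, hA2, hA3⟩ := ih (Q.erase m) (by omega) hc
    refine ⟨A, hA1.trans (Finset.erase_subset _ _), hA2, ?_⟩
    have h1 : (Q.card : ℝ) * f m ≤ ∑ q ∈ Q, f q := by
      rw [← nsmul_eq_mul]; exact Finset.card_nsmul_le_sum Q f _ hmin
    have h2 : f m + ∑ q ∈ Q.erase m, f q = ∑ q ∈ Q, f q := Finset.add_sum_erase Q f hm
    rw [hc] at hA3
    rcases Nat.eq_zero_or_pos (a + d) with h0 | h0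
    · have ha0 : a = 0 := by omega
      subst ha0
      have : A = ∅ := Finset.card_eq_zero.mp hA2
      rw [this]; simp
    · have hd0 : (0 : ℝ) < ((a + d : ℕ) : ℝ) := by exact_mod_cast h0
      have hQ : (Q.card : ℝ) = ((a + d : ℕ) : ℝ) + 1 := by rw [hd]; push_cast; ring
      set S := ∑ q ∈ Q, f q
      set S' := ∑ q ∈ Q.erase m, f q
      set SA := ∑ q ∈ A, f q
      rw [hQ] at h1 ⊢
      set N : ℝ := ((a + d : ℕ) : ℝ)
      -- `N * S ≤ (N+1) * S'`, `a * S' ≤ N * SA`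
      have h3 : N * S ≤ (N + 1) * S' := by
        have : S' = S - f m := by linarith
        rw [this]; nlinarith
      have ha' : (0 : ℝ) ≤ a := by positivity
      have h4 : N * ((a : ℝ) * S) ≤ N * ((N + 1) * SA) := by
        calc N * ((a : ℝ) * S) = a * (N * S) := by ring
          _ ≤ a * ((N + 1) * S') := mul_le_mul_of_nonneg_left h3 ha'
          _ = (N + 1) * (a * S') := by ring
          _ ≤ (N + 1) * (N * SA) := mul_le_mul_of_nonneg_left hA3 (by linarith)
          _ = N * ((N + 1) * SA) := by ring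
      exact le_of_mul_le_mul_left h4 hd0

/-- the test vector `∑_{q ∈ A} ε_q e_{π q} ⊗ v_q` -/
noncomputable def tv (A : Finset I) (π : I → I) (v : I → V) (ε : I → Bool) : EE I V :=
  WithLp.toLp 2 fun p => ∑ q ∈ A with π q = p, sg (ε q) • v q

theorem tv_pi (A : Finset I) (π : I → I) (hπ : Set.InjOn π A) (v : I → V) (ε : I → Bool) (q : I)
    (hq : q ∈ A) : tv A π v ε (π q) = sg (ε q) • v q := by
  have : A.filter (fun q' => π q' = π q) = {q} := by
    ext q'
    simp only [Finset.mem_filter, Finset.mem_singleton]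
    constructor
    · rintro ⟨h1, h2⟩; exact hπ h1 hq h2
    · rintro rfl; exact ⟨hq, rfl⟩
  show ∑ q' ∈ A with π q' = π q, sg (ε q') • v q' = _
  rw [this, Finset.sum_singleton]

theorem tv_out (A : Finset I) (π : I → I) (v : I → V) (ε : I → Bool) (p : I)
    (hp : p ∉ A.image π) : tv A π v ε p = 0 := by
  have : A.filter (fun q' => π q' = p) = ∅ := by
    rw [Finset.filter_eq_empty_iff]
    intro q hq h
    exact hp (Finset.mem_image.mpr ⟨q, hq, h⟩)
  show ∑ q' ∈ A with π q' = p, sg (ε q') • v q' = _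
  rw [this, Finset.sum_empty]

theorem sum_tv {β : Type} [AddCommMonoid β] (A : Finset I) (π : I → I) (hπ : Set.InjOn π A)
    (v : I → V) (ε : I → Bool) (F : I → V → β) (hF : ∀ p, F p 0 = 0) :
    ∑ p, F p (tv A π v ε p) = ∑ q ∈ A, F (π q) (sg (ε q) • v q) := by
  rw [← Finset.sum_subset (Finset.subset_univ (A.image π))
    (fun p _ hp => by rw [tv_out A π v ε p hp, hF])]
  rw [Finset.sum_image hπ]
  exact Finset.sum_congr rfl fun q hq => by rw [tv_pi A π hπ v ε q hq]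

theorem norm_tv (A : Finset I) (π : I → I) (hπ : Set.InjOn π A) (v : I → V)
    (hv : ∀ q, ‖v q‖ = 1) (ε : I → Bool) : ‖tv A π v ε‖ = Real.sqrt A.card := by
  rw [PiLp.norm_eq_of_L2]
  congr 1
  rw [sum_tv A π hπ v ε (fun _ y => ‖y‖ ^ 2) (by simp)]
  simp [norm_smul, hv, abs_sg]

theorem tv_flat (A : Finset I) (π : I → I) (hπ : Set.InjOn π A) (v : I → V)
    (hv : ∀ q, ‖v q‖ = 1) (ε : I → Bool) (p : I) : tv A π v ε p = 0 ∨ ‖tv A π v ε p‖ = 1 := by
  by_cases hp : p ∈ A.image π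
  · obtain ⟨q, hq, rfl⟩ := Finset.mem_image.mp hp
    right
    rw [tv_pi A π hπ v ε q hq, norm_smul, hv, Real.norm_eq_abs, abs_sg, one_mul]
  · left; exact tv_out A π v ε p hp

/-- testing with a flat vector -/
theorem tf_tv (P : Prof I V) (z : XS P) (A : Finset I) (π : I → I) (hπ : Set.InjOn π A)
    (v : I → V) (hv : ∀ q, ‖v q‖ = 1) (ε : I → Bool) :
    tf P z (tv A π v ε) =
      ∑ q ∈ A, sg (ε q) * ⟪fs P z (π q) - sn P z (π q) • P.φ (π q) (Real.log A.card / 2), v q⟫ := by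
  have hlog : Real.log ‖tv A π v ε‖ = Real.log A.card / 2 := by
    rw [norm_tv A π hπ v hv, Real.log_sqrt (by positivity)]
  have h1 : tf P z (tv A π v ε) = ∑ p, ⟪fs P z p - sn P z p • P.φ p (Real.log A.card / 2),
      tv A π v ε p⟫ := by
    rw [tf, PiLp.inner_apply, PiLp.inner_apply, ← Finset.sum_sub_distrib]
    refine Finset.sum_congr rfl fun p _ => ?_
    rw [Os_flat P _ p (tv_flat A π hπ v hv ε p), hlog, inner_sub_left, real_inner_smul_left]
    simp only [RCLike.inner_apply, conj_trivial]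
    ring
  rw [h1, sum_tv A π hπ v ε (fun p y => ⟪fs P z p - sn P z p • P.φ p (Real.log A.card / 2), y⟫)
    (fun p => by simp)]
  exact Finset.sum_congr rfl fun q _ => by rw [real_inner_smul_right]

theorem Lv_sum (P : Prof I V) (T : XS P →ₗ[ℝ] XS P) (t : ℝ) (A : Finset I) (ε : I → Bool) (p : I) :
    fs P (T (lev P (fun r => P.φ r t) (sgv A ε))) p -
      sn P (T (lev P (fun r => P.φ r t) (sgv A ε))) p • P.φ p t =
    ∑ q ∈ A, sg (ε q) • Lv P T t q p := by
  let G : HH I →ₗ[ℝ] V :=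
    (PiLp.projₗ 2 (fun _ : I => V) (𝕜 := ℝ) p ∘ₗ fs P ∘ₗ T ∘ₗ lev P (fun r => P.φ r t)) -
      (LinearMap.toSpanSingleton ℝ V (P.φ p t) ∘ₗ EuclideanSpace.projₗ (𝕜 := ℝ) p ∘ₗ
        sn P ∘ₗ T ∘ₗ lev P (fun r => P.φ r t))
  have hG : ∀ x, G x = fs P (T (lev P (fun r => P.φ r t) x)) p -
      sn P (T (lev P (fun r => P.φ r t) x)) p • P.φ p t := fun x => rfl
  rw [← hG, sgv_eq_sum, map_sum]
  refine Finset.sum_congr rfl fun q _ => ?_
  rw [map_smul, hG]
  rfl

theorem level_sub (hA1 : JobA1) (P : Prof I V) (T : XS P →ₗ[ℝ] XS P) (K : ℝ) (hK : 0 < K)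
    (hT : Bd T K) (A : Finset I) (π : I → I) (hπ : Set.InjOn π A) (hA : 1 ≤ A.card) :
    ∑ q ∈ A, ‖Lv P T (Real.log A.card / 2) q (π q)‖ ≤ K * A.card := by
  classical
  set t : ℝ := Real.log A.card / 2 with ht
  set v : I → V := fun q => if Lv P T t q (π q) = 0 then P.e₀ else
    ‖Lv P T t q (π q)‖⁻¹ • Lv P T t q (π q) with hvd
  have hv : ∀ q, ‖v q‖ = 1 := by
    intro q
    simp only [hvd]
    split_ifs with h
    · exact P.ne0
    · rw [norm_smul, norm_inv, norm_norm, inv_mul_cancel₀ (norm_ne_zero_iff.mpr h)]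
  have hvL : ∀ q, ⟪Lv P T t q (π q), v q⟫ = ‖Lv P T t q (π q)‖ := by
    intro q
    simp only [hvd]
    split_ifs with h
    · rw [h]; simp
    · rw [real_inner_smul_right, real_inner_self_eq_norm_sq, sq, ← mul_assoc,
        inv_mul_cancel₀ (norm_ne_zero_iff.mpr h), one_mul]
  have hpt : ∀ ε : I → Bool, ∑ q ∈ A, ∑ q' ∈ A, sg (ε q) * sg (ε q') *
      ⟪Lv P T t q' (π q), v q⟫ ≤ K * A.card := by
    intro ε
    have hc : (0 : ℝ) ≤ A.card := by positivity
    have h1 : ‖lev P (fun r => P.φ r t) (sgv A ε)‖ ≤ Real.sqrt A.card := by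
      have h2 := norm_lev_flat P (sgv A ε) (fun q => by
        rw [sgv_apply]
        split_ifs
        · exact Or.inr (abs_sg _)
        · exact Or.inl rfl)
      rw [norm_sgv, Real.log_sqrt hc] at h2
      exact h2
    have h2 := tf_le P (T (lev P (fun r => P.φ r t) (sgv A ε))) (tv A π v ε)
    rw [norm_tv A π hπ v hv, tf_tv P _ A π hπ v hv ε] at h2
    have h3 : ‖T (lev P (fun r => P.φ r t) (sgv A ε))‖ * Real.sqrt A.card ≤ K * A.card := by
      calc ‖T (lev P (fun r => P.φ r t) (sgv A ε))‖ * Real.sqrt A.card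
          ≤ (K * Real.sqrt A.card) * Real.sqrt A.card := by
            apply mul_le_mul_of_nonneg_right _ (Real.sqrt_nonneg _)
            exact (hT _).trans (mul_le_mul_of_nonneg_left h1 hK.le)
        _ = K * A.card := by rw [mul_assoc, Real.mul_self_sqrt hc]
    refine le_trans (le_of_eq ?_) ((le_abs_self _).trans (h2.trans h3))
    refine Finset.sum_congr rfl fun q _ => ?_
    rw [← ht, Lv_sum P T t A ε (π q), sum_inner, Finset.mul_sum]
    refine Finset.sum_congr rfl fun q' _ => ?_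
    rw [real_inner_smul_left]; ring
  have h5 := av_le hpt
  rw [hA1 I A (fun q q' => ⟪Lv P T t q' (π q), v q⟫)] at h5
  simpa only [hvL] using h5

theorem jobF1 (hA1 : JobA1) : JobF1 := by
  intro I V _ _ _ _ P T K hK hT Q₁ π hπ a ha1 ha2
  obtain ⟨A, hA, hAc, hAs⟩ := subset_avg Q₁ (fun q => ‖Lv P T (Real.log a / 2) q (π q)‖) a ha2
  have h1 := level_sub hA1 P T K hK hT A π (hπ.mono hA) (by omega)
  rw [hAc] at h1
  have ha0 : (0 : ℝ) < a := by exact_mod_cast ha1
  have h2 : (a : ℝ) * ∑ q ∈ Q₁, ‖Lv P T (Real.log a / 2) q (π q)‖ ≤ a * (K * Q₁.card) := by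
    refine hAs.trans ?_
    calc (Q₁.card : ℝ) * ∑ q ∈ A, ‖Lv P T (Real.log a / 2) q (π q)‖ ≤ Q₁.card * (K * a) :=
          mul_le_mul_of_nonneg_left h1 (by positivity)
      _ = a * (K * Q₁.card) := by ring
  exact le_of_mul_le_mul_left h2 ha0

end Pool.Agent.V5helper68.CS
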