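import Pool.Agent.V5helper68.CS.Glob

set_option autoImplicit false

open scoped RealInnerProductSpace ENNReal
open Finset Filter

namespace Pool.Agent.V5helper68.CS

/-- a gadget -/
structure Gd where
  k : ℕ
  M : ℕ
  P : Prof (Fin k) (EuclideanSpace ℝ (Option (Fin M)))
  K : ℕ

/-- the lower-2 constant of the finite-dimensional space of a gadget -/
noncomputable def Gam (h3 : JobH3) (g : Gd) : ℝ := Classical.choose (h3 (XS g.P))

theorem Gam_nonneg (h3 : JobH3) (g : Gd) : 0 ≤ Gam h3 g :=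
  (Classical.choose_spec (h3 (XS g.P))).1

theorem Gam_spec (h3 : JobH3) (g : Gd) (J : Type) [Fintype J] [DecidableEq J] (Q : Finset J)
    (W : J → XS g.P) : ∑ q ∈ Q, ‖W q‖ ^ 2 ≤
      Gam h3 g ^ 2 * av (fun ε : J → Bool => ‖∑ q ∈ Q, sg (ε q) • W q‖ ^ 2) :=
  (Classical.choose_spec (h3 (XS g.P))).2 J Q W

/-- the quantity `η log(k/2)/2` -/
noncomputable def Lg (g : Gd) : ℝ := g.P.η * (Real.log ((g.k : ℝ) / 2) / 2)

def GoodG (g : Gd) : Prop :=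
  1 ≤ g.K ∧ 0 < g.k ∧ MGp g.P g.K ∧ 16 * (g.K : ℝ) ^ 2 * (1 + 7) ≤ Lg g

def RelG (h3 : JobH3) (g g' : Gd) : Prop :=
  g.K < g'.K ∧ g'.P.c ^ 2 * g.k ≤ 1 ∧ 16 * (g'.K : ℝ) ^ 2 * (1 + Gam h3 g) ≤ Lg g'

theorem lower_Lg (κ l : ℕ) (η : ℝ) (hη : 0 < η) (hκ : 2 ≤ κ) :
    η * ((8 * l - 1) * Real.log 2 / 2) ≤ η * (Real.log (((κ ^ (8 * l) : ℕ) : ℝ) / 2) / 2) := by
  apply mul_le_mul_of_nonneg_left _ hη.le
  have h2 : (0 : ℝ) < 2 := by norm_num
  have hκR : (2 : ℝ) ≤ κ := by exact_mod_cast hκ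
  have hlog : Real.log 2 ≤ Real.log κ := Real.log_le_log h2 hκR
  push_cast
  rw [Real.log_div (by positivity) (by norm_num), Real.log_pow]
  push_cast
  have hl : (0 : ℝ) ≤ l := by positivity
  nlinarith [mul_le_mul_of_nonneg_left hlog (show (0 : ℝ) ≤ 8 * l by positivity)]

theorem step_exists (h3 : JobH3) (hMG : JobMG) (s : Finset Gd) (hs : ∀ g ∈ s, GoodG g) :
    ∃ g', GoodG g' ∧ ∀ g ∈ s, RelG h3 g g' := by
  classical
  set K : ℕ := 1 + ∑ g ∈ s, g.K with hKd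
  set k₀ : ℕ := 1 + ∑ g ∈ s, g.k with hkd
  have hK1 : 1 ≤ K := by omega
  have hk1 : 1 ≤ k₀ := by omega
  have hk1R : (1 : ℝ) ≤ k₀ := by exact_mod_cast hk1
  set η : ℝ := 1 / (3 * k₀) with hηd
  have hη : 0 < η := by positivity
  have hη3 : η ≤ 1 / 3 := by
    rw [hηd, div_le_div_iff₀ (by positivity) (by norm_num)]; linarith
  obtain ⟨κ, M, l₀, hκ, hl₀⟩ := hMG (K : ℝ) η (by exact_mod_cast hK1) hη hη3
  set C : ℝ := 16 * (K : ℝ) ^ 2 * (1 + 7 + ∑ g ∈ s, Gam h3 g) with hC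
  have htend : Tendsto (fun l : ℕ => η * ((8 * (l : ℝ) - 1) * Real.log 2 / 2)) atTop atTop := by
    have h1 : Tendsto (fun l : ℕ => 8 * (l : ℝ) - 1) atTop atTop :=
      tendsto_atTop_add_const_right _ _
        (tendsto_natCast_atTop_atTop.const_mul_atTop (by norm_num))
    have h2 : 0 < Real.log 2 := Real.log_pos (by norm_num)
    exact ((h1.atTop_mul_const h2).atTop_div_const (by norm_num)).const_mul_atTop hη
  obtain ⟨l, hl1, hl2⟩ := ((eventually_ge_atTop l₀).and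
    (htend.eventually (eventually_ge_atTop C))).exists
  obtain ⟨P, hPη, hPc, hP⟩ := hl₀ l hl1
  have hL : C ≤ Lg ⟨κ ^ (8 * l), M, P, K⟩ := by
    refine hl2.trans ?_
    have := lower_Lg κ l η hη hκ
    rw [Lg]
    simpa [hPη] using this
  have hΓs : 0 ≤ ∑ g ∈ s, Gam h3 g := Finset.sum_nonneg fun g _ => Gam_nonneg h3 g
  refine ⟨⟨κ ^ (8 * l), M, P, K⟩, ⟨hK1, by positivity, hP, ?_⟩, fun g hg => ⟨?_, ?_, ?_⟩⟩
  · refine le_trans ?_ hL
    rw [hC]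
    have : (0 : ℝ) ≤ 16 * (K : ℝ) ^ 2 := by positivity
    nlinarith
  · show g.K < K
    have := Finset.single_le_sum (f := fun g : Gd => g.K) (fun _ _ => Nat.zero_le _) hg
    omega
  · show P.c ^ 2 * g.k ≤ 1
    have h1 := Finset.single_le_sum (f := fun g : Gd => g.k) (fun _ _ => Nat.zero_le _) hg
    have h2 : (g.k : ℝ) ≤ k₀ := by exact_mod_cast (show g.k ≤ k₀ by omega)
    rw [hPc, hηd]
    have h3' : (3 * (1 / (3 * (k₀ : ℝ)))) ^ 2 * g.k = g.k / (k₀ : ℝ) ^ 2 := by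
      field_simp
    rw [h3', div_le_one (by positivity)]
    nlinarith
  · refine le_trans ?_ hL
    have h1 := Finset.single_le_sum (f := fun g : Gd => Gam h3 g)
      (fun g _ => Gam_nonneg h3 g) hg
    rw [hC]
    have : (0 : ℝ) ≤ 16 * (K : ℝ) ^ 2 := by positivity
    exact mul_le_mul_of_nonneg_left (by linarith) this

theorem seq_exists (h3 : JobH3) (hMG : JobMG) : ∃ g : ℕ → Gd, (∀ n, GoodG (g n)) ∧
    ∀ m n, m < n → RelG h3 (g m) (g n) :=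
  exists_seq_of_forall_finset_exists GoodG (RelG h3) (step_exists h3 hMG)

theorem lower2_global (h3 : JobH3) (hH2 : JobH2) (g : ℕ → Gd)
    (hr : ∀ m n, m < n → RelG h3 (g m) (g n)) (n : ℕ) (Γ : ℝ) (h7 : 7 ≤ Γ)
    (hΓ : ∀ m < n, Gam h3 (g m) ≤ Γ) (Q : Finset (Fin (g n).k))
    (W : Fin (g n).k → XX (fun n => (g n).P)) (hW : ∀ q, W q n = 0) :
    ∑ q ∈ Q, ‖W q‖ ^ 2 ≤
      Γ ^ 2 * av (fun ε : Fin (g n).k → Bool => ‖∑ q ∈ Q, sg (ε q) • W q‖ ^ 2) := by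
  have h1 : HasSum (fun i => ∑ q ∈ Q, ‖W q i‖ ^ 2) (∑ q ∈ Q, ‖W q‖ ^ 2) :=
    hasSum_sum fun q _ => hasSum_sq (W q)
  have h2 : HasSum (fun i => Γ ^ 2 * av (fun ε : Fin (g n).k → Bool =>
      ‖∑ q ∈ Q, sg (ε q) • W q i‖ ^ 2))
      (Γ ^ 2 * av (fun ε : Fin (g n).k → Bool => ‖∑ q ∈ Q, sg (ε q) • W q‖ ^ 2)) := by
    refine HasSum.mul_left _ ?_
    refine HasSum.div_const ?_ _
    refine hasSum_sum fun ε _ => ?_
    have := hasSum_sq (∑ q ∈ Q, sg (ε q) • W q)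
    refine this.congr_fun fun i => ?_
    have e : (∑ q ∈ Q, sg (ε q) • W q : XX (fun n => (g n).P)) i = ∑ q ∈ Q, sg (ε q) • W q i := by
      exact map_sum (lp.evalₗ (𝕜 := ℝ) (fun n => XS (g n).P) 2 i) (fun q => sg (ε q) • W q) Q
    rw [e]
  have hav : ∀ F : (Fin (g n).k → Bool) → ℝ, (∀ ε, 0 ≤ F ε) → 0 ≤ av F := fun F hF =>
    div_nonneg (Finset.sum_nonneg fun ε _ => hF ε) (by positivity)
  refine hasSum_le (fun i => ?_) h1 h2
  rcases lt_trichotomy i n with h | h | h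
  · refine (Gam_spec h3 (g i) _ Q (fun q => W q i)).trans ?_
    refine mul_le_mul_of_nonneg_right ?_ (hav _ fun _ => sq_nonneg _)
    exact pow_le_pow_left₀ (Gam_nonneg h3 _) (hΓ i h) 2
  · subst h
    simp only [hW, norm_zero]
    simp only [smul_zero, Finset.sum_const_zero, norm_zero]
    simp [av]
  · refine (hH2 _ _ _ (g i).P Q (fun q => W q i) ?_).trans ?_
    · have h5 := (hr n i h).2.1
      have h6 : (Q.card : ℝ) ≤ (g n).k := by
        have := Finset.card_le_univ Q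
        rw [Fintype.card_fin] at this
        exact_mod_cast this
      exact (mul_le_mul_of_nonneg_left h6 (sq_nonneg _)).trans h5
    · refine mul_le_mul_of_nonneg_right ?_ (hav _ fun _ => sq_nonneg _)
      exact pow_le_pow_left₀ (by norm_num) h7 2

theorem decomp {E : ℕ → Type} [∀ n, NormedAddCommGroup (E n)] [∀ n, NormedSpace ℝ (E n)]
    (J : lp E 2 →L[ℝ] lp E 2) (hJ : J.comp J = -(ContinuousLinearMap.id ℝ _)) (K : ℝ)
    (hKn : ‖J‖ ≤ K) (n : ℕ) :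
    ∃ (T : E n →ₗ[ℝ] E n) (U : E n →ₗ[ℝ] lp E 2) (W : lp E 2 →ₗ[ℝ] E n),
      Bd T K ∧ Bd U (2 * K) ∧ Bd W K ∧ (∀ z, U z n = 0) ∧ ∀ z, T (T z) + W (U z) = -z := by
  let ι : E n →ₗ[ℝ] lp E 2 := lp.lsingle (𝕜 := ℝ) 2 n
  let π : lp E 2 →ₗ[ℝ] E n := lp.evalₗ (𝕜 := ℝ) E 2 n
  have hι : ∀ z, ‖ι z‖ = ‖z‖ := fun z => lp.norm_single (p := 2) (by norm_num) n z
  have hπ : ∀ f, ‖π f‖ ≤ ‖f‖ := fun f => lp.norm_apply_le_norm (p := 2) (by norm_num) f n
  have hπι : ∀ z, π (ι z) = z := fun z => lp.single_apply_self 2 n z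
  have hJb : ∀ f, ‖J f‖ ≤ K * ‖f‖ := fun f =>
    (J.le_opNorm f).trans (mul_le_mul_of_nonneg_right hKn (norm_nonneg f))
  have hJJ : ∀ f, J (J f) = -f := fun f => by
    have := congrArg (fun T : lp E 2 →L[ℝ] lp E 2 => T f) hJ
    simpa using this
  refine ⟨π ∘ₗ J.toLinearMap ∘ₗ ι, J.toLinearMap ∘ₗ ι - ι ∘ₗ π ∘ₗ J.toLinearMap ∘ₗ ι,
    π ∘ₗ J.toLinearMap, fun z => ?_, fun z => ?_, fun f => (hπ _).trans (hJb _), fun z => ?_,
    fun z => ?_⟩
  · refine (hπ _).trans ((hJb _).trans ?_)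
    rw [hι]
  · have h1 : ‖J (ι z)‖ ≤ K * ‖z‖ := by
      have := hJb (ι z); rwa [hι] at this
    have h2 : ‖ι (π (J (ι z)))‖ ≤ K * ‖z‖ := by
      rw [hι]; exact (hπ _).trans h1
    calc ‖(J.toLinearMap ∘ₗ ι - ι ∘ₗ π ∘ₗ J.toLinearMap ∘ₗ ι) z‖
        = ‖J (ι z) - ι (π (J (ι z)))‖ := rfl
      _ ≤ ‖J (ι z)‖ + ‖ι (π (J (ι z)))‖ := norm_sub_le _ _
      _ ≤ 2 * K * ‖z‖ := by linarith
  · have : π (J (ι z) - ι (π (J (ι z)))) = 0 := by
      rw [map_sub, hπι, sub_self]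
    exact this
  · show π (J (ι (π (J (ι z))))) + π (J (J (ι z) - ι (π (J (ι z))))) = -z
    rw [map_sub, map_sub, hJJ, map_neg, hπι]
    abel

theorem no_J (h3 : JobH3) (hH1 : JobH1) (hH2 : JobH2) (g : ℕ → Gd) (hg : ∀ n, GoodG (g n))
    (hr : ∀ m n, m < n → RelG h3 (g m) (g n))
    (J : XX (fun n => (g n).P) →L[ℝ] XX (fun n => (g n).P))
    (hJ : J.comp J = -(ContinuousLinearMap.id ℝ _)) : False := by
  -- choose `n`
  have hmono : StrictMono (fun n => (g n).K) := fun m n h => (hr m n h).1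
  obtain ⟨n, hn⟩ := exists_nat_ge ‖J‖
  have hKn : ‖J‖ ≤ ((g n).K : ℝ) :=
    hn.trans (by exact_mod_cast hmono.le_apply)
  obtain ⟨hK1, hk0, hMGp, hLg⟩ := hg n
  obtain ⟨T, U, W, hT, hU, hW, hU0, hid⟩ := decomp J hJ _ hKn n
  have hK1R : (1 : ℝ) ≤ (g n).K := by exact_mod_cast hK1
  obtain ⟨Q, hQ1, hQ2⟩ := hMGp T hT
  have hlow := lower2_global h3 hH2 g hr n
  have hH' := fun (Γ : ℝ) (hΓ : 0 ≤ Γ) (hQne : Q.Nonempty) => hH1 (Fin (g n).k) _
    (XX (fun n => (g n).P)) (g n).P U W (2 * (g n).K) (g n).K Γ (by positivity) (by positivity)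
    hΓ hU hW Q hQne
  have hrn := fun m hm => (hr m n hm).2.2
  generalize hK : ((g n).K : ℝ) = K at *
  rw [Fintype.card_fin] at hQ1 hQ2
  have hK0 : 0 < K := by linarith
  have hkR : (0 : ℝ) < (g n).k := by exact_mod_cast hk0
  have hQne : Q.Nonempty := by
    rw [← Finset.card_pos]; omega
  have hQcR : ((g n).k : ℝ) / 2 ≤ Q.card := by
    have : ((g n).k : ℝ) ≤ 2 * Q.card := by exact_mod_cast hQ1
    linarith
  set Γ : ℝ := Lg (g n) / (16 * K ^ 2) - 1 with hΓ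
  have hK2 : (0 : ℝ) < 16 * K ^ 2 := by positivity
  have hΓ7 : 7 ≤ Γ := by
    rw [hΓ, le_sub_iff_add_le, le_div_iff₀ hK2]; linarith
  have hΓm : ∀ m < n, Gam h3 (g m) ≤ Γ := fun m hm => by
    have := hrn m hm
    rw [hΓ, le_sub_iff_add_le, le_div_iff₀ hK2]; linarith
  have hΓ' : Lg (g n) = 16 * K ^ 2 * (1 + Γ) := by
    rw [hΓ]; field_simp; ring
  have hlow' := hlow Γ hΓ7 hΓm Q (fun q => U (zz (g n).P (eb q)))
    (fun q => hU0 _)
  have hH := hH' Γ (by linarith) hQne hlow'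
  rw [Fintype.card_fin] at hH
  clear hH' hlow hlow' hrn hΓm
  have hpt : ∀ q ∈ Q, (sn (g n).P (T (T (zz (g n).P (eb q))))) q +
        (sn (g n).P (W (U (zz (g n).P (eb q))))) q = -1 := fun q _ => by
    rw [← PiLp.add_apply, ← map_add, hid, map_neg, PiLp.neg_apply]
    have : sn (g n).P (zz (g n).P (eb q)) = eb q := rfl
    rw [this, eb]
    simp
  have hsum : ∑ q ∈ Q, sn (g n).P (T (T (zz (g n).P (eb q)))) q +
      ∑ q ∈ Q, sn (g n).P (W (U (zz (g n).P (eb q)))) q = -(Q.card : ℝ) := by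
    rw [← Finset.sum_add_distrib, Finset.sum_congr rfl hpt]
    simp
  clear hpt
  generalize ∑ q ∈ Q, sn (g n).P (W (U (zz (g n).P (eb q)))) q = S at *
  generalize ∑ q ∈ Q, sn (g n).P (T (T (zz (g n).P (eb q)))) q = S' at *
  have hL0 : 0 < Lg (g n) := by
    rw [hΓ']; positivity
  have hlogQ : Lg (g n) ≤ (g n).P.η * (Real.log Q.card / 2) := by
    rw [Lg]
    apply mul_le_mul_of_nonneg_left _ (g n).P.η0.le
    have : Real.log (((g n).k : ℝ) / 2) ≤ Real.log Q.card :=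
      Real.log_le_log (by positivity) hQcR
    linarith
  have hSb : |S| ≤ (g n).k / 8 := by
    have h1 : Lg (g n) * |S| ≤ Lg (g n) * ((g n).k / 8) := by
      refine (mul_le_mul_of_nonneg_right hlogQ (abs_nonneg S)).trans (hH.trans ?_)
      rw [hΓ']; nlinarith
    exact le_of_mul_le_mul_left h1 hL0
  have h9 := (abs_le.mp hSb).2
  have h10 := (abs_le.mp hSb).1
  linarith

/-- The final statement, assuming the jobs. -/
theorem final (h3 : JobH3) (hH1 : JobH1) (hH2 : JobH2) (hMG : JobMG) :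
    ∃ (X : Type) (_ : NormedAddCommGroup X) (_ : NormedSpace ℝ X) (_ : CompleteSpace X)
      (Y : Submodule ℝ X),
      IsClosed (Y : Set X) ∧
      ¬ FiniteDimensional ℝ X ∧
      (∃ (H : Type) (_ : NormedAddCommGroup H) (_ : InnerProductSpace ℝ H) (_ : CompleteSpace H),
        Nonempty (Y ≃L[ℝ] H)) ∧
      (∃ (H' : Type) (_ : NormedAddCommGroup H') (_ : InnerProductSpace ℝ H') (_ : CompleteSpace H'),
        Nonempty ((X ⧸ Y) ≃L[ℝ] H')) ∧
      ¬ ∃ J : X →L[ℝ] X, J.comp J = -(ContinuousLinearMap.id ℝ X) := by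
  obtain ⟨g, hg, hr⟩ := seq_exists h3 hMG
  refine ⟨XX (fun n => (g n).P), inferInstance, inferInstance, inferInstance,
    YY (fun n => (g n).P), YY_closed _, not_findim _ fun n => (hg n).2.1,
    ⟨EEE (fun n => (g n).k) (fun n => (g n).M), inferInstance, inferInstance, inferInstance,
      ⟨YYequiv _⟩⟩,
    ⟨HHH (fun n => (g n).k), inferInstance, inferInstance, inferInstance, quotEquiv _⟩, ?_⟩
  rintro ⟨J, hJ⟩
  exact no_J h3 hH1 hH2 g hg hr J hJ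

end Pool.Agent.V5helper68.CS
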