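import Pool.Agent.V5helper68.CS.MG
import Pool.Agent.V5helper68.CS.C
import Pool.Agent.V5helper68.CS.F1
import Pool.Agent.V5helper68.CS.Main
import Pool.Agent.V5helper9.CS.AV
import Pool.Agent.V5helper29.CS.E1
import Pool.Agent.V5helper29.CS.E2
import Pool.Agent.V5helper81.CS.D23
import Pool.Agent.V5helper81.CS.H123
import Pool.Agent.V5helper98.CS.Maf2

set_option autoImplicit false

namespace Pool.Agent.V5helper68.CS

theorem asm (hD1 : JobD1) (hG1 : JobG1) : JobMG :=
  jobMG hD1 (V5helper81.CS.jobD2 V5helper9.CS.jobA2) (V5helper81.CS.jobD3 V5helper9.CS.jobA1) hG1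
    V5helper98.CS.jobMA (V5helper98.CS.jobF2 (jobF1 V5helper9.CS.jobA1) V5helper29.CS.jobE1)
    V5helper29.CS.jobE2 jobC

theorem asm3 : JobH3 := V5helper81.CS.jobH3 V5helper9.CS.jobA1
theorem asm1 : JobH1 := V5helper81.CS.jobH1 V5helper9.CS.jobA1
theorem asm2 : JobH2 := V5helper81.CS.jobH2 V5helper9.CS.jobA1

end Pool.Agent.V5helper68.CS
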