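import Mathlib

/-!
# Twisted Hilbert spaces without complex structure: basic definitions

`Prof I V` is a profile: for each coordinate `q : I` a Lipschitz curve `φ q : ℝ → V`.
It defines the twisted sum `XS P` of `EE I V = ℓ²(I, V)` and `HH I = ℓ²(I)`.
-/

set_option autoImplicit false

open scoped RealInnerProductSpace
open Finset

namespace Pool.Agent.V5helper68.CS

/-- The average of a real function over a finite type. -/
noncomputable def av {Ω : Type} [Fintype Ω] (F : Ω → ℝ) : ℝ :=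
  (∑ ω, F ω) / (Fintype.card Ω : ℝ)

/-- The sign `±1` of a bit. -/
def sg (b : Bool) : ℝ := if b then 1 else -1

/-- `ℓ²(I, V)`. -/
abbrev EE (I V : Type) : Type := PiLp 2 (fun _ : I => V)

/-- `ℓ²(I)`. -/
abbrev HH (I : Type) : Type := EuclideanSpace ℝ I

/-- A profile. -/
structure Prof (I V : Type) [Fintype I] [NormedAddCommGroup V] [InnerProductSpace ℝ V] where
  φ : I → ℝ → V
  c : ℝ
  η : ℝ
  e₀ : V
  c0 : 0 ≤ c
  c1 : c ≤ 1
  η0 : 0 < η
  zero : ∀ q, φ q 0 = 0
  lip : ∀ q s t, ‖φ q s - φ q t‖ ≤ c * |s - t|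
  ne0 : ‖e₀‖ = 1
  inn : ∀ q t, ⟪e₀, φ q t⟫ = η * t
  top : ∀ q, φ q (Real.log (Fintype.card I) / 2) = (η * (Real.log (Fintype.card I) / 2)) • e₀

variable {I V : Type} [Fintype I] [NormedAddCommGroup V] [InnerProductSpace ℝ V]

namespace Prof

/-- The homogeneous map `Ω`. -/
noncomputable def Om (P : Prof I V) (x : HH I) : EE I V :=
  WithLp.toLp 2 (fun q => x q • P.φ q (Real.log (‖x‖ / |x q|)))

/-- The adjoint homogeneous map `Ω*`. -/
noncomputable def Os (P : Prof I V) (w : EE I V) : HH I :=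
  WithLp.toLp 2 (fun q => ⟪P.φ q (Real.log (‖w‖ / ‖w q‖)), w q⟫)

end Prof

/-- The twisted sum (as a type synonym of the product, with another norm). -/
def XS (_P : Prof I V) : Type := EE I V × HH I

noncomputable instance (P : Prof I V) : AddCommGroup (XS P) :=
  inferInstanceAs (AddCommGroup (EE I V × HH I))

noncomputable instance (P : Prof I V) : Module ℝ (XS P) :=
  inferInstanceAs (Module ℝ (EE I V × HH I))

/-- the `E`-component -/
noncomputable def fs (P : Prof I V) : XS P →ₗ[ℝ] EE I V := LinearMap.fst ℝ (EE I V) (HH I)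

/-- the `H`-component -/
noncomputable def sn (P : Prof I V) : XS P →ₗ[ℝ] HH I := LinearMap.snd ℝ (EE I V) (HH I)

/-- the pair `(y, x)` -/
def mk (P : Prof I V) (y : EE I V) (x : HH I) : XS P := (y, x)

@[simp] theorem fs_mk (P : Prof I V) (y : EE I V) (x : HH I) : fs P (mk P y x) = y := rfl
@[simp] theorem sn_mk (P : Prof I V) (y : EE I V) (x : HH I) : sn P (mk P y x) = x := rfl
theorem mk_fs_sn (P : Prof I V) (z : XS P) : mk P (fs P z) (sn P z) = z := rfl
theorem XS.ext' {P : Prof I V} {z z' : XS P} (h1 : fs P z = fs P z') (h2 : sn P z = sn P z') :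
    z = z' := Prod.ext h1 h2

/-- The test form: `⟪y, w⟫ - ⟪x, Ω* w⟫`. -/
noncomputable def tf (P : Prof I V) (z : XS P) (w : EE I V) : ℝ :=
  ⟪fs P z, w⟫ - ⟪sn P z, P.Os w⟫

theorem tf_add (P : Prof I V) (z z' : XS P) (w : EE I V) :
    tf P (z + z') w = tf P z w + tf P z' w := by
  simp only [tf, map_add, inner_add_left]; ring

theorem tf_smul (P : Prof I V) (a : ℝ) (z : XS P) (w : EE I V) :
    tf P (a • z) w = a * tf P z w := by
  simp only [tf, map_smul, real_inner_smul_left]; ring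

/-! ### the basic inequality (S) -/

theorem t_log_t {t : ℝ} (ht : 1 ≤ t) : t * Real.log t ≤ (1 + t ^ 2) / 2 := by
  have h0 : 0 < t := by linarith
  have hs : 0 < Real.sqrt t := Real.sqrt_pos.mpr h0
  have h1 : Real.log t = 2 * Real.log (Real.sqrt t) := by
    rw [Real.log_sqrt h0.le]; ring
  have h2 : Real.log (Real.sqrt t) ≤ Real.sqrt t - 1 := Real.log_le_sub_one_of_pos hs
  have h3 : Real.sqrt t ^ 2 = t := Real.sq_sqrt h0.le
  set s := Real.sqrt t with hsdef
  have h4 : t * Real.log t ≤ t * (2 * (s - 1)) := by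
    rw [h1]; apply mul_le_mul_of_nonneg_left _ h0.le; linarith
  have h5 : t * (2 * (s - 1)) ≤ (1 + t ^ 2) / 2 := by
    rw [← h3]; nlinarith [sq_nonneg (s ^ 2 - 2 * s)]
  linarith

theorem ab_log {a b : ℝ} (ha : 0 < a) (hb : 0 < b) :
    a * b * |Real.log (b / a)| ≤ (a ^ 2 + b ^ 2) / 2 := by
  wlog h : a ≤ b generalizing a b with H
  · have := H hb ha (le_of_not_ge h)
    have h2 : |Real.log (b / a)| = |Real.log (a / b)| := by
      rw [← abs_neg, ← Real.log_inv, inv_div]
    rw [h2]; linarith [mul_comm a b]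
  have ht : 1 ≤ b / a := (one_le_div ha).mpr h
  rw [abs_of_nonneg (Real.log_nonneg ht)]
  have := t_log_t ht
  have h3 : a * b * Real.log (b / a) = a ^ 2 * (b / a * Real.log (b / a)) := by
    field_simp
  rw [h3]
  calc a ^ 2 * (b / a * Real.log (b / a)) ≤ a ^ 2 * ((1 + (b / a) ^ 2) / 2) :=
        mul_le_mul_of_nonneg_left this (by positivity)
    _ = (a ^ 2 + b ^ 2) / 2 := by field_simp

theorem sS_aux (P : Prof I V) (q : I) (A B a b : ℝ) (hA : 0 < A) (hB : 0 < B) (ha : 0 ≤ a)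
    (hb : 0 ≤ b) :
    a * b * ‖P.φ q (Real.log (A / a)) - P.φ q (Real.log (B / b))‖ ≤
      P.c * (A * B) * (((a / A) ^ 2 + (b / B) ^ 2) / 2) := by
  rcases ha.eq_or_lt with h | h
  · rw [← h]; simp only [zero_mul]
    have := P.c0; positivity
  rcases hb.eq_or_lt with h' | h'
  · rw [← h']; simp only [mul_zero, zero_mul]
    have := P.c0; positivity
  have h1 := P.lip q (Real.log (A / a)) (Real.log (B / b))
  have h2 := ab_log (a := a / A) (b := b / B) (by positivity) (by positivity)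
  have h3 : Real.log (A / a) - Real.log (B / b) = Real.log ((b / B) / (a / A)) := by
    rw [← Real.log_div (by positivity) (by positivity)]
    congr 1; field_simp
  rw [h3] at h1
  calc a * b * ‖P.φ q (Real.log (A / a)) - P.φ q (Real.log (B / b))‖
      ≤ a * b * (P.c * |Real.log ((b / B) / (a / A))|) :=
        mul_le_mul_of_nonneg_left h1 (by positivity)
    _ = P.c * (A * B) * ((a / A) * (b / B) * |Real.log ((b / B) / (a / A))|) := by
        field_simp
    _ ≤ P.c * (A * B) * (((a / A) ^ 2 + (b / B) ^ 2) / 2) := by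
        apply mul_le_mul_of_nonneg_left h2
        have := P.c0; positivity

theorem sS (P : Prof I V) (x : HH I) (w : EE I V) :
    |⟪P.Om x, w⟫ - ⟪x, P.Os w⟫| ≤ P.c * ‖x‖ * ‖w‖ := by
  rcases eq_or_ne x 0 with hx | hx
  · subst hx
    have : P.Om 0 = 0 := by
      ext q; simp [Prof.Om]
    rw [this]; simp
  rcases eq_or_ne w 0 with hw | hw
  · subst hw
    have : P.Os (0 : EE I V) = 0 := by
      ext q; simp [Prof.Os]
    rw [this]; simp
  have hx' : 0 < ‖x‖ := norm_pos_iff.mpr hx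
  have hw' : 0 < ‖w‖ := norm_pos_iff.mpr hw
  have e1 : ⟪P.Om x, w⟫ - ⟪x, P.Os w⟫ = ∑ q, x q * ⟪P.φ q (Real.log (‖x‖ / |x q|)) -
      P.φ q (Real.log (‖w‖ / ‖w q‖)), w q⟫ := by
    rw [PiLp.inner_apply, PiLp.inner_apply, ← Finset.sum_sub_distrib]
    refine Finset.sum_congr rfl fun q _ => ?_
    simp only [Prof.Om, Prof.Os, real_inner_smul_left, inner_sub_left]
    simp only [RCLike.inner_apply, conj_trivial]
    ring
  rw [e1]
  calc |∑ q, x q * ⟪P.φ q (Real.log (‖x‖ / |x q|)) - P.φ q (Real.log (‖w‖ / ‖w q‖)), w q⟫|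
      ≤ ∑ q, |x q * ⟪P.φ q (Real.log (‖x‖ / |x q|)) - P.φ q (Real.log (‖w‖ / ‖w q‖)), w q⟫| :=
        Finset.abs_sum_le_sum_abs _ _
    _ ≤ ∑ q, P.c * (‖x‖ * ‖w‖) * (((|x q| / ‖x‖) ^ 2 + (‖w q‖ / ‖w‖) ^ 2) / 2) := by
        refine Finset.sum_le_sum fun q _ => ?_
        rw [abs_mul]
        have h1 := abs_real_inner_le_norm (P.φ q (Real.log (‖x‖ / |x q|)) -
          P.φ q (Real.log (‖w‖ / ‖w q‖))) (w q)
        have h2 := sS_aux P q ‖x‖ ‖w‖ |x q| ‖w q‖ hx' hw' (abs_nonneg _) (norm_nonneg _)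
        have h3 := mul_le_mul_of_nonneg_left h1 (abs_nonneg (x q))
        nlinarith [h1, h2, h3]
    _ = P.c * ‖x‖ * ‖w‖ := by
        rw [← Finset.mul_sum, ← Finset.sum_div, Finset.sum_add_distrib]
        have h1 : ∑ q, (|x q| / ‖x‖) ^ 2 = 1 := by
          simp_rw [div_pow, sq_abs]
          rw [← Finset.sum_div, ← EuclideanSpace.real_norm_sq_eq]
          field_simp
        have h2 : ∑ q, (‖w q‖ / ‖w‖) ^ 2 = 1 := by
          simp_rw [div_pow]
          rw [← Finset.sum_div, ← PiLp.norm_sq_eq_of_L2]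
          field_simp
        rw [h1, h2]; ring

theorem Os_smul (P : Prof I V) (a : ℝ) (w : EE I V) : P.Os (a • w) = a • P.Os w := by
  rcases eq_or_ne a 0 with h | h
  · subst h; ext q; simp [Prof.Os]
  ext q
  simp only [Prof.Os, PiLp.smul_apply, norm_smul, real_inner_smul_right]
  congr 4
  rw [mul_div_mul_left _ _ (norm_ne_zero_iff.mpr h)]

theorem Om_smul (P : Prof I V) (a : ℝ) (x : HH I) : P.Om (a • x) = a • P.Om x := by
  rcases eq_or_ne a 0 with h | h
  · subst h; ext q; simp [Prof.Om]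
  ext q
  simp only [Prof.Om, PiLp.smul_apply, norm_smul, smul_eq_mul, abs_mul, Real.norm_eq_abs]
  rw [mul_div_mul_left _ _ (abs_ne_zero.mpr h), mul_smul]

theorem tf_bound (P : Prof I V) (z : XS P) (w : EE I V) :
    |tf P z w| ≤ (‖fs P z - P.Om (sn P z)‖ + P.c * ‖sn P z‖) * ‖w‖ := by
  have h1 : tf P z w = ⟪fs P z - P.Om (sn P z), w⟫ +
      (⟪P.Om (sn P z), w⟫ - ⟪sn P z, P.Os w⟫) := by
    simp only [tf, inner_sub_left]; ring
  rw [h1]
  refine (abs_add_le _ _).trans ?_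
  have h2 := abs_real_inner_le_norm (fs P z - P.Om (sn P z)) w
  have h3 := sS P (sn P z) w
  rw [add_mul]; linarith

theorem tf_smul_right (P : Prof I V) (a : ℝ) (z : XS P) (w : EE I V) :
    tf P z (a • w) = a * tf P z w := by
  simp only [tf, Os_smul, real_inner_smul_right]; ring

/-- the norm of the twisted sum -/
noncomputable def nm (P : Prof I V) (z : XS P) : ℝ :=
  max ‖sn P z‖ (⨆ w : Metric.closedBall (0 : EE I V) 1, |tf P z w|)

theorem nm_bdd (P : Prof I V) (z : XS P) :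
    BddAbove (Set.range fun w : Metric.closedBall (0 : EE I V) 1 => |tf P z w|) := by
  refine ⟨(‖fs P z - P.Om (sn P z)‖ + P.c * ‖sn P z‖) * 1, ?_⟩
  rintro _ ⟨w, rfl⟩
  refine (tf_bound P z w).trans ?_
  have hw : ‖(w : EE I V)‖ ≤ 1 := mem_closedBall_zero_iff.mp w.2
  have := P.c0
  exact mul_le_mul_of_nonneg_left hw (by positivity)

theorem tf_le_nm (P : Prof I V) (z : XS P) (w : EE I V) : |tf P z w| ≤ nm P z * ‖w‖ := by
  rcases eq_or_ne w 0 with hw | hw
  · subst hw
    have := tf_smul_right P 0 z (0 : EE I V)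
    rw [zero_smul, zero_mul] at this
    rw [this]; simp
  have hw' : 0 < ‖w‖ := norm_pos_iff.mpr hw
  have h1 : (‖w‖⁻¹ • w) ∈ Metric.closedBall (0 : EE I V) 1 := by
    simp [norm_smul, hw'.ne']
  have h2 := le_ciSup (nm_bdd P z) ⟨_, h1⟩
  simp only [tf_smul_right, abs_mul, abs_inv, abs_norm] at h2
  have h3 : |tf P z w| ≤ (⨆ w : Metric.closedBall (0 : EE I V) 1, |tf P z w|) * ‖w‖ := by
    rwa [inv_mul_le_iff₀ hw', mul_comm] at h2
  exact h3.trans (mul_le_mul_of_nonneg_right (le_max_right _ _) hw'.le)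

theorem sn_le_nm (P : Prof I V) (z : XS P) : ‖sn P z‖ ≤ nm P z := le_max_left _ _

theorem nm_le (P : Prof I V) (z : XS P) {C : ℝ} (h1 : ‖sn P z‖ ≤ C)
    (h2 : ∀ w : EE I V, |tf P z w| ≤ C * ‖w‖) : nm P z ≤ C := by
  refine max_le h1 ?_
  have : Nonempty (Metric.closedBall (0 : EE I V) 1) := ⟨⟨0, by simp⟩⟩
  refine ciSup_le fun w => (h2 w).trans ?_
  have hw : ‖(w : EE I V)‖ ≤ 1 := mem_closedBall_zero_iff.mp w.2
  have hC : 0 ≤ C := (norm_nonneg _).trans h1
  nlinarith

theorem nm_nonneg (P : Prof I V) (z : XS P) : 0 ≤ nm P z := (norm_nonneg _).trans (sn_le_nm P z)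

theorem nm_add (P : Prof I V) (z z' : XS P) : nm P (z + z') ≤ nm P z + nm P z' := by
  refine nm_le P _ ?_ fun w => ?_
  · rw [map_add]
    exact (norm_add_le _ _).trans (add_le_add (sn_le_nm P z) (sn_le_nm P z'))
  · rw [tf_add, add_mul]
    exact (abs_add_le _ _).trans (add_le_add (tf_le_nm P z w) (tf_le_nm P z' w))

theorem nm_smul_le (P : Prof I V) (a : ℝ) (z : XS P) : nm P (a • z) ≤ |a| * nm P z := by
  refine nm_le P _ ?_ fun w => ?_
  · rw [map_smul, norm_smul, Real.norm_eq_abs]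
    exact mul_le_mul_of_nonneg_left (sn_le_nm P z) (abs_nonneg a)
  · rw [tf_smul, abs_mul, mul_assoc]
    exact mul_le_mul_of_nonneg_left (tf_le_nm P z w) (abs_nonneg a)

theorem nm_smul (P : Prof I V) (a : ℝ) (z : XS P) : nm P (a • z) = |a| * nm P z := by
  rcases eq_or_ne a 0 with h | h
  · subst h
    refine le_antisymm (nm_smul_le P _ _) ?_
    simpa using nm_nonneg P _
  refine le_antisymm (nm_smul_le P _ _) ?_
  have h1 := nm_smul_le P a⁻¹ (a • z)
  rw [smul_smul, inv_mul_cancel₀ h, one_smul, abs_inv, ← div_eq_inv_mul,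
    le_div_iff₀ (abs_pos.mpr h)] at h1
  linarith

theorem Om_zero (P : Prof I V) : P.Om (0 : HH I) = 0 := by
  ext q; simp [Prof.Om]

theorem nm_eq_zero (P : Prof I V) (z : XS P) : nm P z = 0 ↔ z = 0 := by
  constructor
  · intro h
    have h1 : sn P z = 0 := by
      have := sn_le_nm P z
      rw [h] at this
      exact norm_le_zero_iff.mp this
    have h2 : fs P z = 0 := by
      have := tf_le_nm P z (fs P z)
      rw [h, zero_mul, tf, h1, inner_zero_left, sub_zero, real_inner_self_eq_norm_sq] at this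
      have h3 : ‖fs P z‖ ^ 2 ≤ 0 := (le_abs_self _).trans this
      have h4 : ‖fs P z‖ = 0 := by nlinarith [norm_nonneg (fs P z)]
      exact norm_eq_zero.mp h4
    exact XS.ext' (h2.trans (map_zero _).symm) (h1.trans (map_zero _).symm)
  · rintro rfl
    refine le_antisymm (nm_le P _ (by simp) fun w => ?_) (nm_nonneg P _)
    simp [tf]

noncomputable instance instNormXS (P : Prof I V) : Norm (XS P) := ⟨nm P⟩

theorem coreXS (P : Prof I V) : NormedSpace.Core ℝ (XS P) where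
  norm_nonneg := nm_nonneg P
  norm_smul := fun a z => nm_smul P a z
  norm_triangle := nm_add P
  norm_eq_zero_iff := nm_eq_zero P

noncomputable instance instNACG (P : Prof I V) : NormedAddCommGroup (XS P) :=
  NormedAddCommGroup.ofCore (coreXS P)

noncomputable instance instNS (P : Prof I V) : NormedSpace ℝ (XS P) :=
  NormedSpace.ofCore (coreXS P)

instance (P : Prof I V) [FiniteDimensional ℝ V] : FiniteDimensional ℝ (XS P) :=
  inferInstanceAs (FiniteDimensional ℝ (EE I V × HH I))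

instance (P : Prof I V) [FiniteDimensional ℝ V] : CompleteSpace (XS P) :=
  FiniteDimensional.complete ℝ _

theorem norm_def (P : Prof I V) (z : XS P) : ‖z‖ = nm P z := rfl

theorem sn_le (P : Prof I V) (z : XS P) : ‖sn P z‖ ≤ ‖z‖ := sn_le_nm P z

theorem tf_le (P : Prof I V) (z : XS P) (w : EE I V) : |tf P z w| ≤ ‖z‖ * ‖w‖ := tf_le_nm P z w

theorem norm_le' (P : Prof I V) (z : XS P) {C : ℝ} (h1 : ‖sn P z‖ ≤ C)
    (h2 : ∀ w : EE I V, |tf P z w| ≤ C * ‖w‖) : ‖z‖ ≤ C := nm_le P z h1 h2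

theorem norm_y0 (P : Prof I V) (y : EE I V) : ‖mk P y 0‖ = ‖y‖ := by
  refine le_antisymm (norm_le' P _ (by simp) fun w => ?_) ?_
  · simp only [tf, fs_mk, sn_mk, inner_zero_left, sub_zero]
    exact abs_real_inner_le_norm _ _
  · have := tf_le P (mk P y 0) y
    simp only [tf, fs_mk, sn_mk, inner_zero_left, sub_zero, real_inner_self_eq_norm_sq] at this
    have h2 : ‖y‖ ^ 2 ≤ ‖mk P y 0‖ * ‖y‖ := (le_abs_self _).trans this
    rcases (norm_nonneg y).eq_or_lt with h | h
    · rw [← h]; exact norm_nonneg _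
    · nlinarith

theorem norm_le_Om (P : Prof I V) (z : XS P) :
    ‖z‖ ≤ ‖fs P z - P.Om (sn P z)‖ + ‖sn P z‖ := by
  refine norm_le' P _ (by linarith [norm_nonneg (fs P z - P.Om (sn P z))]) fun w => ?_
  refine (tf_bound P z w).trans (mul_le_mul_of_nonneg_right ?_ (norm_nonneg w))
  nlinarith [P.c1, norm_nonneg (sn P z)]

theorem norm_Om (P : Prof I V) (x : HH I) : ‖mk P (P.Om x) x‖ ≤ ‖x‖ := by
  simpa using norm_le_Om P (mk P (P.Om x) x)

theorem Om_le (P : Prof I V) (z : XS P) : ‖fs P z - P.Om (sn P z)‖ ≤ (1 + P.c) * ‖z‖ := by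
  set u := fs P z - P.Om (sn P z) with hu
  have h1 : ⟪u, u⟫ = tf P z u - (⟪P.Om (sn P z), u⟫ - ⟪sn P z, P.Os u⟫) := by
    rw [tf]; nth_rewrite 1 [hu]; rw [inner_sub_left]; ring
  have h2 := tf_le P z u
  have h3 := sS P (sn P z) u
  have h4 := sn_le P z
  rw [real_inner_self_eq_norm_sq] at h1
  have h5 : ‖u‖ ^ 2 ≤ ‖z‖ * ‖u‖ + P.c * ‖sn P z‖ * ‖u‖ := by
    rw [h1]
    have := abs_sub (tf P z u) (⟪P.Om (sn P z), u⟫ - ⟪sn P z, P.Os u⟫)
    linarith [le_abs_self (tf P z u - (⟪P.Om (sn P z), u⟫ - ⟪sn P z, P.Os u⟫))]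
  have h6 : P.c * ‖sn P z‖ * ‖u‖ ≤ P.c * ‖z‖ * ‖u‖ :=
    mul_le_mul_of_nonneg_right (mul_le_mul_of_nonneg_left h4 P.c0) (norm_nonneg u)
  rcases (norm_nonneg u).eq_or_lt with h | h
  · rw [← h]; have := P.c0; positivity
  · nlinarith

theorem Om_le2 (P : Prof I V) (z : XS P) : ‖fs P z - P.Om (sn P z)‖ ≤ 2 * ‖z‖ := by
  refine (Om_le P z).trans (mul_le_mul_of_nonneg_right ?_ (norm_nonneg z))
  linarith [P.c1]

/-! ### flat vectors -/

/-- The linear lift `x ↦ ((x q • v q)_q, x)`. -/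
noncomputable def lev (P : Prof I V) (v : I → V) : HH I →ₗ[ℝ] XS P where
  toFun x := mk P (WithLp.toLp 2 (fun q => x q • v q)) x
  map_add' x y := by
    refine XS.ext' ?_ rfl
    ext q
    simp [add_smul]
  map_smul' a x := by
    refine XS.ext' ?_ rfl
    ext q
    simp [mul_smul]

@[simp] theorem fs_lev (P : Prof I V) (v : I → V) (x : HH I) :
    fs P (lev P v x) = WithLp.toLp 2 (fun q => x q • v q) := rfl

@[simp] theorem sn_lev (P : Prof I V) (v : I → V) (x : HH I) : sn P (lev P v x) = x := rfl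

/-- the level `λ = η log k / 2` of the top lift -/
noncomputable def lam (P : Prof I V) : ℝ := P.η * (Real.log (Fintype.card I) / 2)

/-- the top lift `z` -/
noncomputable def zz (P : Prof I V) : HH I →ₗ[ℝ] XS P := lev P (fun _ => lam P • P.e₀)

theorem norm_lev_flat (P : Prof I V) (x : HH I) (hx : ∀ q, x q = 0 ∨ |x q| = 1) :
    ‖lev P (fun q => P.φ q (Real.log ‖x‖)) x‖ ≤ ‖x‖ := by
  have : lev P (fun q => P.φ q (Real.log ‖x‖)) x = mk P (P.Om x) x := by
    refine XS.ext' ?_ rfl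
    ext q
    simp only [fs_lev, fs_mk, Prof.Om]
    rcases hx q with h | h
    · rw [h]; simp
    · rw [h, div_one]
  rw [this]; exact norm_Om P x

theorem Os_flat (P : Prof I V) (w : EE I V) (q : I) (hw : w q = 0 ∨ ‖w q‖ = 1) :
    P.Os w q = ⟪P.φ q (Real.log ‖w‖), w q⟫ := by
  simp only [Prof.Os]
  rcases hw with h | h
  · rw [h]; simp
  · rw [h, div_one]

theorem norm_zz_sign (P : Prof I V) (x : HH I) (hx : ∀ q, |x q| = 1) :
    ‖zz P x‖ ≤ Real.sqrt (Fintype.card I) := by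
  have h1 : ‖x‖ = Real.sqrt (Fintype.card I) := by
    rw [EuclideanSpace.norm_eq]
    congr 1
    simp [hx]
  have h2 := norm_lev_flat P x (fun q => Or.inr (hx q))
  rw [h1, Real.log_sqrt (by positivity)] at h2
  have h3 : (fun q => P.φ q (Real.log (Fintype.card I) / 2)) =
      fun _ : I => lam P • P.e₀ := by
    funext q; rw [P.top q]; rfl
  rw [h3] at h2
  exact h2

theorem norm_zz (P : Prof I V) (x : HH I) (hx : ∀ q, |x q| ≤ 1) :
    ‖zz P x‖ ≤ Real.sqrt (Fintype.card I) := by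
  set F : (I → ℝ) →ₗ[ℝ] XS P :=
    (zz P).comp (WithLp.linearEquiv 2 ℝ (I → ℝ)).symm.toLinearMap with hF
  have hconv : Convex ℝ (F ⁻¹' (Metric.closedBall 0 (Real.sqrt (Fintype.card I)))) :=
    (convex_closedBall _ _).linear_preimage F
  have hsub : Set.univ.pi (fun _ : I => ({-1, 1} : Set ℝ)) ⊆
      F ⁻¹' (Metric.closedBall 0 (Real.sqrt (Fintype.card I))) := by
    intro y hy
    simp only [Set.mem_preimage, mem_closedBall_zero_iff]
    refine norm_zz_sign P _ fun q => ?_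
    have := hy q (Set.mem_univ q)
    simp only [Set.mem_insert_iff, Set.mem_singleton_iff] at this
    show |y q| = 1
    rcases this with h | h <;> rw [h] <;> simp
  have h2 := convexHull_min hsub hconv
  rw [convexHull_pi] at h2
  have h3 : (fun q => x q) ∈ Set.univ.pi (fun _ : I => convexHull ℝ ({-1, 1} : Set ℝ)) := by
    intro q _
    rw [convexHull_pair, segment_eq_Icc (by norm_num)]
    exact abs_le.mp (hx q)
  have h4 := h2 h3
  exact mem_closedBall_zero_iff.mp h4

end Pool.Agent.V5helper68.CS
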