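import Pool.Agent.V5helper68.CS.Jobs

set_option autoImplicit false

open scoped RealInnerProductSpace ENNReal
open Finset Filter

namespace Pool.Agent.V5helper68.CS

section lpmap

variable {E F : ℕ → Type} [∀ n, NormedAddCommGroup (E n)] [∀ n, NormedSpace ℝ (E n)]
  [∀ n, NormedAddCommGroup (F n)] [∀ n, NormedSpace ℝ (F n)]

theorem hasSum_sq (f : lp E 2) : HasSum (fun i => ‖f i‖ ^ 2) (‖f‖ ^ 2) := by
  have := lp.hasSum_norm (p := 2) (by norm_num) f
  simpa using this

theorem mem_of_le {f : ∀ n, E n} {g : lp F 2} {C : ℝ} (h : ∀ n, ‖f n‖ ≤ C * ‖g n‖) :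
    Memℓp f 2 := by
  refine (lp.memℓp (C • g)).mono' (f := f) fun n => ?_
  rw [lp.coeFn_smul, Pi.smul_apply, norm_smul]
  exact (h n).trans (mul_le_mul_of_nonneg_right (le_abs_self C) (norm_nonneg _))

theorem norm_le_lp {f : lp E 2} {g : lp F 2} {C : ℝ} (hC : 0 ≤ C)
    (h : ∀ n, ‖f n‖ ≤ C * ‖g n‖) : ‖f‖ ≤ C * ‖g‖ := by
  have h1 := hasSum_sq f
  have h2 := (hasSum_sq g).mul_left (C ^ 2)
  have h3 : ‖f‖ ^ 2 ≤ C ^ 2 * ‖g‖ ^ 2 := by
    refine hasSum_le (fun n => ?_) h1 h2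
    rw [← mul_pow]
    exact pow_le_pow_left₀ (norm_nonneg _) (h n) 2
  rw [← mul_pow] at h3
  exact le_of_sq_le_sq₀' h3 (by positivity)
  where
  le_of_sq_le_sq₀' {a b : ℝ} (h : a ^ 2 ≤ b ^ 2) (hb : 0 ≤ b) : a ≤ b :=
    le_of_sq_le_sq h hb
  le_of_sq_le_sq {a b : ℝ} (h : a ^ 2 ≤ b ^ 2) (hb : 0 ≤ b) : a ≤ b := by
    exact abs_le_of_sq_le_sq' h hb |>.2

/-- coordinatewise map of `ℓ²`-sums -/
noncomputable def lpmap (S : ∀ n, E n →ₗ[ℝ] F n) (C : ℝ) (hC : 0 ≤ C)
    (h : ∀ n x, ‖S n x‖ ≤ C * ‖x‖) : lp E 2 →L[ℝ] lp F 2 :=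
  LinearMap.mkContinuous
    { toFun := fun f => ⟨fun n => S n (f n), mem_of_le (g := f) fun n => h n (f n)⟩
      map_add' := fun f g => by
        ext n
        exact map_add (S n) (f n) (g n)
      map_smul' := fun a f => by
        ext n
        exact map_smul (S n) a (f n) } C fun f => norm_le_lp hC fun n => h n (f n)

@[simp] theorem lpmap_apply (S : ∀ n, E n →ₗ[ℝ] F n) (C : ℝ) (hC : 0 ≤ C)
    (h : ∀ n x, ‖S n x‖ ≤ C * ‖x‖) (f : lp E 2) (n : ℕ) : lpmap S C hC h f n = S n (f n) := rfl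

end lpmap

section structure_

variable {k M : ℕ → ℕ} (P : ∀ n, Prof (Fin (k n)) (EuclideanSpace ℝ (Option (Fin (M n)))))

/-- the space -/
abbrev XX : Type := lp (fun n => XS (P n)) 2
/-- the sum of the `H_n` -/
abbrev HHH (k : ℕ → ℕ) : Type := lp (fun n => HH (Fin (k n))) 2
/-- the sum of the `E_n` -/
abbrev EEE (k M : ℕ → ℕ) : Type :=
  lp (fun n => EE (Fin (k n)) (EuclideanSpace ℝ (Option (Fin (M n))))) 2

/-- the quotient map -/
noncomputable def qm : XX P →L[ℝ] HHH k :=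
  lpmap (fun n => sn (P n)) 1 zero_le_one fun n x => by
    rw [one_mul]; exact sn_le (P n) x

@[simp] theorem qm_apply (f : XX P) (n : ℕ) : qm P f n = sn (P n) (f n) := rfl

theorem qm_surj : Function.Surjective (qm P) := by
  intro x
  have hmem : Memℓp (fun n => mk (P n) ((P n).Om (x n)) (x n)) 2 := by
    refine mem_of_le (g := x) (C := 1) fun n => ?_
    rw [one_mul]; exact norm_Om (P n) (x n)
  refine ⟨⟨_, hmem⟩, ?_⟩
  ext n : 2
  rfl

/-- the subspace `Y` -/
noncomputable def YY : Submodule ℝ (XX P) := (qm P).ker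

theorem mem_YY (f : XX P) : f ∈ YY P ↔ ∀ n, sn (P n) (f n) = 0 := by
  rw [YY, LinearMap.mem_ker]
  constructor
  · intro h n
    have := congrArg (fun g : HHH k => g n) h
    exact this
  · intro h
    ext n : 2
    exact h n

theorem YY_closed : IsClosed (YY P : Set (XX P)) := (qm P).isClosed_ker

/-- `E`-part of elements of `Y` -/
theorem norm_fs_of {f : XX P} (hf : f ∈ YY P) (n : ℕ) : ‖fs (P n) (f n)‖ = ‖f n‖ := by
  have h1 := (mem_YY P f).mp hf n
  rw [← norm_y0 (P n) (fs (P n) (f n)), ← h1]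
  rfl

/-- the embedding `E → X` -/
noncomputable def emb : EEE k M →L[ℝ] XX P :=
  lpmap (fun n => (LinearMap.inl ℝ _ _ : EE (Fin (k n)) (EuclideanSpace ℝ (Option (Fin (M n))))
    →ₗ[ℝ] XS (P n))) 1 zero_le_one fun n x => by
      rw [one_mul]; exact (norm_y0 (P n) x).le

theorem emb_apply (y : EEE k M) (n : ℕ) : emb P y n = mk (P n) (y n) 0 := rfl

theorem emb_mem (y : EEE k M) : emb P y ∈ YY P := by
  rw [mem_YY]; intro n; rfl

theorem norm_emb (y : EEE k M) : ‖emb P y‖ = ‖y‖ := by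
  have h1 := hasSum_sq (emb P y)
  have h2 := hasSum_sq y
  have h3 : ‖emb P y‖ ^ 2 = ‖y‖ ^ 2 := by
    refine h1.unique ?_
    refine h2.congr_fun fun n => ?_
    rw [emb_apply, norm_y0]
  exact (sq_eq_sq₀ (norm_nonneg _) (norm_nonneg _)).mp h3

theorem emb_surj {f : XX P} (hf : f ∈ YY P) : ∃ y : EEE k M, emb P y = f := by
  have hmem : Memℓp (fun n => fs (P n) (f n)) 2 := by
    refine mem_of_le (g := f) (C := 1) fun n => ?_
    rw [one_mul, norm_fs_of P hf]
  refine ⟨⟨_, hmem⟩, ?_⟩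
  ext n : 2
  refine XS.ext' rfl ?_
  exact ((mem_YY P f).mp hf n).symm

/-- `Y` is isometric to a Hilbert space. -/
noncomputable def YYequiv : YY P ≃L[ℝ] EEE k M := by
  let L : EEE k M →ₗ[ℝ] YY P := (emb P).toLinearMap.codRestrict (YY P) (emb_mem P)
  have hL : Function.Bijective L := by
    constructor
    · intro y y' h
      have h2 : emb P (y - y') = 0 := by
        rw [map_sub, sub_eq_zero]
        exact congrArg Subtype.val h
      have h3 := norm_emb P (y - y')
      rw [h2, norm_zero] at h3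
      exact sub_eq_zero.mp (norm_eq_zero.mp h3.symm)
    · rintro ⟨f, hf⟩
      obtain ⟨y, hy⟩ := emb_surj P hf
      exact ⟨y, Subtype.ext hy⟩
  let e : EEE k M ≃ₗᵢ[ℝ] YY P := ⟨LinearEquiv.ofBijective L hL, fun y => norm_emb P y⟩
  exact e.symm.toContinuousLinearEquiv

/-- `X / Y` is isomorphic to a Hilbert space. -/
theorem quotEquiv : Nonempty ((XX P ⧸ YY P) ≃L[ℝ] HHH k) := by
  have : IsClosed (YY P : Set (XX P)) := YY_closed P
  let L : (XX P ⧸ YY P) →ₗ[ℝ] HHH k := (YY P).liftQ (qm P).toLinearMap le_rfl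
  have hc : Continuous L := by
    rw [(YY P).isOpenQuotientMap_mkQ.isQuotientMap.continuous_iff]
    exact (qm P).continuous
  let L' : (XX P ⧸ YY P) →L[ℝ] HHH k := ⟨L, hc⟩
  have hinj : L'.ker = ⊥ := by
    exact Submodule.ker_liftQ_eq_bot _ _ _ le_rfl
  have hsurj : L'.range = ⊤ := by
    refine LinearMap.range_eq_top.mpr fun y => ?_
    obtain ⟨x, hx⟩ := qm_surj P y
    exact ⟨Submodule.Quotient.mk x, hx⟩
  exact ⟨ContinuousLinearEquiv.ofBijective L' hinj hsurj⟩

theorem not_findim (hk : ∀ n, 0 < k n) : ¬ FiniteDimensional ℝ (XX P) := by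
  intro hfd
  have hfd2 : FiniteDimensional ℝ (HHH k) :=
    Module.Finite.of_surjective (qm P).toLinearMap (qm_surj P)
  -- the vectors `e_0` in the `n`-th coordinates are linearly independent
  let v : ℕ → HHH k := fun n => lp.single 2 n (EuclideanSpace.single ⟨0, hk n⟩ (1 : ℝ))
  have hv : LinearIndependent ℝ v := by
    have ho : Orthonormal ℝ v := by
      rw [orthonormal_iff_ite]
      intro i j
      rw [lp.inner_single_left]
      by_cases h : i = j
      · subst h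
        rw [if_pos rfl, lp.single_apply_self, real_inner_self_eq_norm_sq,
          EuclideanSpace.norm_single]
        simp
      · rw [if_neg h, lp.single_apply_ne _ _ _ h, inner_zero_right]
    exact ho.linearIndependent
  have := hv.finite
  exact not_finite ℕ

end structure_

end Pool.Agent.V5helper68.CS
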