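import Pool.Agent.V5helper68.CS.Defs

/-!
# Job statements

Every `JobX : Prop` below is a self-contained lemma; a proof is a theorem `jobX : JobX`
(possibly assuming other jobs).  All of them are proved on paper; see the comments.
-/

set_option autoImplicit false

open scoped RealInnerProductSpace
open Finset

namespace Pool.Agent.V5helper68.CS

/-- Bounded by `K`. -/
def Bd {X Y : Type} [NormedAddCommGroup X] [NormedSpace ℝ X] [NormedAddCommGroup Y]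
    [NormedSpace ℝ Y] (T : X →ₗ[ℝ] Y) (K : ℝ) : Prop := ∀ z, ‖T z‖ ≤ K * ‖z‖

/-- the vector `∑_{q ∈ Q} ε_q e_q` -/
noncomputable def sgv {I : Type} [DecidableEq I] (Q : Finset I) (ε : I → Bool) :
    HH I := WithLp.toLp 2 fun q => if q ∈ Q then sg (ε q) else 0

/-- the basis vector `e_q` -/
noncomputable def eb {I : Type} [DecidableEq I] (q : I) : HH I := EuclideanSpace.single q 1

/-- Matrix of `D' x = (T (z x)).2`: `Dm P T p q = (D' e_q)_p`. -/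
noncomputable def Dm {I V : Type} [Fintype I] [DecidableEq I] [NormedAddCommGroup V]
    [InnerProductSpace ℝ V] (P : Prof I V) (T : XS P →ₗ[ℝ] XS P) (p q : I) : ℝ :=
  sn P (T (zz P (eb q))) p

/-! ## Averages -/

/-- A1: sign averages of bilinear forms.  (Proof: average over one coordinate first.) -/
def JobA1 : Prop := ∀ (I : Type) [Fintype I] [DecidableEq I] (Q : Finset I) (a : I → I → ℝ),
  av (fun ε : I → Bool => ∑ q ∈ Q, ∑ q' ∈ Q, sg (ε q) * sg (ε q') * a q q') = ∑ q ∈ Q, a q q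

/-- A2: `L¹` Khinchin inequality for signs with the constant `2`.
Proof: `X = ∑ ε_q a_q`, `Av X² = S := ∑ a²`, `Av X⁴ ≤ 3 S²` (induction on `Q`),
`|X| ≥ (3/2) X²/b - (1/2) X⁴/b³` with `b = √(3 S)`. -/
def JobA2 : Prop := ∀ (I : Type) [Fintype I] [DecidableEq I] (Q : Finset I) (a : I → ℝ),
  Real.sqrt (∑ q ∈ Q, a q ^ 2) ≤ 2 * av (fun ε : I → Bool => |∑ q ∈ Q, sg (ε q) * a q|)

/-- `tn s ∈ {-1, 0, 1}`: a sign with probability `1/(n+1)`, and `0` otherwise. -/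
def tn (n : ℕ) (s : Fin (n + 1) × Bool) : ℝ := if s.1 = 0 then sg s.2 else 0

/-- A3: ternary averages, lower bound, `ϱ = n+1`, threshold `ρ = δ / √ϱ`.
Proof: let `X = ∑_{small p} ζ_p d_p`.  `Av |∑ ζ d| ≥ Av |X|` by flipping the signs of the other
coordinates; `Av X² = M/ϱ`, `Av X⁴ ≤ 3 M²/ϱ² + (1/ϱ) ∑_{small} d⁴ ≤ (3 M² + δ² M)/ϱ²`; with
`b² = (3 M + δ²)/ϱ` get `Av |X| ≥ (3/2) AvX²/b - (1/2) AvX⁴/b³ ≥ (M/ϱ)/b ≥ (√M - δ)/√(3ϱ)`. -/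
def JobA3 : Prop := ∀ (I : Type) [Fintype I] [DecidableEq I] (n : ℕ) (δ : ℝ), 0 < δ →
  ∀ d : I → ℝ,
  (Real.sqrt (∑ p with |d p| ≤ δ / Real.sqrt (n + 1), d p ^ 2) - δ) / Real.sqrt (3 * (n + 1)) ≤
    av (fun ω : I → Fin (n + 1) × Bool => |∑ p, tn n (ω p) * d p|)

/-- A4: ternary averages, upper bounds (`Av (∑ ζ_p d_p)² = (∑ d²)/ϱ` and Cauchy-Schwarz). -/
def JobA4 : Prop := ∀ (I : Type) [Fintype I] [DecidableEq I] (n : ℕ),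
  (∀ d : I → ℝ, av (fun ω : I → Fin (n + 1) × Bool => |∑ p, tn n (ω p) * d p|) ≤
    Real.sqrt (∑ p, d p ^ 2) / Real.sqrt (n + 1)) ∧
  av (fun ω : I → Fin (n + 1) × Bool => ∑ p, tn n (ω p) ^ 2) = (Fintype.card I : ℝ) / (n + 1) ∧
  av (fun ω : I → Fin (n + 1) × Bool => Real.sqrt (∑ p, tn n (ω p) ^ 2)) ≤
    Real.sqrt ((Fintype.card I : ℝ) / (n + 1))

/-! ## Operators on the twisted sum -/

/-- D1 (Step 1).  The small entries of `D'` have small mass. -/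
def JobD1 : Prop := ∀ K η δ : ℝ, 0 < K → 0 < η → 0 < δ → ∃ ρ > 0,
  ∀ (I V : Type) [Fintype I] [DecidableEq I] [NormedAddCommGroup V] [InnerProductSpace ℝ V]
    (P : Prof I V) (T : XS P →ₗ[ℝ] XS P), P.η = η → Bd T K →
    ∑ q, Real.sqrt (∑ p with |Dm P T p q| ≤ ρ, Dm P T p q ^ 2) ≤ δ * Fintype.card I

/-- D2: row sets.  (For `w' = sgv P₁ ε`: `∑_q |⟪D'e_q, w'⟫| = ⟪D'x, w'⟫ ≤ K √k √|P₁|` with `x` a
sign vector, using `norm_zz`; average over `ε` with A2.) -/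
def JobD2 : Prop := ∀ (I V : Type) [Fintype I] [DecidableEq I] [NormedAddCommGroup V]
    [InnerProductSpace ℝ V] (P : Prof I V) (T : XS P →ₗ[ℝ] XS P) (K : ℝ), 0 < K → Bd T K →
    ∀ P₁ : Finset I, ∑ q, Real.sqrt (∑ p ∈ P₁, Dm P T p q ^ 2) ≤
      2 * K * Real.sqrt ((Fintype.card I : ℝ) * P₁.card)

/-- D3: Hilbert-Schmidt norm.  (`Av ‖D'x‖² ≤ K² k` over sign vectors `x`.) -/
def JobD3 : Prop := ∀ (I V : Type) [Fintype I] [DecidableEq I] [NormedAddCommGroup V]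
    [InnerProductSpace ℝ V] (P : Prof I V) (T : XS P →ₗ[ℝ] XS P) (K : ℝ), 0 < K → Bd T K →
    ∑ q, ∑ p, Dm P T p q ^ 2 ≤ K ^ 2 * Fintype.card I

/-- G1 (Step 4).  If `D'` is nearly diagonal on the columns in `Q`, then the partial trace of
`(T T z).2` over `Q` is `≥ -` small.
Proof: `g = ∑_Q ε_q e_q`, `dg = ∑_Q d_q ε_q e_q` (`d_q = Dm q q`, `|d_q| ≤ 3K`),
`z'' = T z(g) - z(dg)`, `‖z''‖ ≤ 4K√k`, `ξ = (z'').2 = ∑_Q ε_q (D'e_q - d_q e_q)`,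
`Av ‖ξ‖² ≤ δ² k`.  `T T z(g) = T z(dg) + T z''` and `Av ⟪g, (T z(dg)).2⟫ = ∑_Q d_q² ≥ 0`.
`z'' = (Ωξ, ξ) + (y'' - Ωξ, 0)`, `‖(Ωξ,ξ)‖ ≤ ‖ξ‖` (`norm_Om`), `‖y'' - Ωξ‖ ≤ 2‖z''‖` (`Om_le2`).
For `C y = (T (y,0)).2` and `A y = (T (y,0)).1`:
testing `T(y,0)` with `w = e_p ⊗ e₀` (`Os w = 0`, as `φ 0 = 0`) gives `|(A y)_{p}·e₀| ≤ K ‖y‖`, and
with `w = ∑_p ε_p e_p ⊗ e₀` (all of `I`; `Os w = λ ∑ ε_p e_p`, `λ = lam P`)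
`|⟪A y, w⟫ - λ ⟪C y, ∑ ε_p e_p⟫| ≤ K ‖y‖ √k`; so for the adjoints
`∑_p ‖A*(e_p⊗e₀) - λ C* e_p‖² ≤ K² k`, `∑_p ‖C* e_p‖² ≤ 4 K² k / λ²` and
`Av |⟪g, C(y''-Ωξ)⟫| ≤ Av ‖C* g‖ · 8K√k ≤ 16 K² k / λ`. -/
def JobG1 : Prop := ∀ (I V : Type) [Fintype I] [DecidableEq I] [NormedAddCommGroup V]
    [InnerProductSpace ℝ V] [FiniteDimensional ℝ V] (P : Prof I V) (T : XS P →ₗ[ℝ] XS P)
    (K δ : ℝ), 1 ≤ K → 0 < δ → 0 < lam P → Bd T K → ∀ Q : Finset I,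
    (∀ q ∈ Q, ∑ p ∈ univ.erase q, Dm P T p q ^ 2 ≤ δ ^ 2) → (∀ q ∈ Q, |Dm P T q q| ≤ 3 * K) →
    -((K * δ + 16 * K ^ 2 / lam P) * Fintype.card I) ≤
      ∑ q ∈ Q, sn P (T (T (zz P (eb q)))) q

/-- H1 (off-diagonal lemma). `W_q = U z(e_q)`.
Proof: test `V W_q` with `e_q ⊗ e₀` (`Os = 0`): `|⟪(V W_q).1_q, e₀⟫| ≤ K₂ ‖W_q‖`; test
`V (∑_Q ε_q W_q)` with `w = ∑_Q ε_q e_q ⊗ e₀` (`‖w‖ = √|Q|`, `Os w = η (log|Q|/2) ∑_Q ε_q e_q`)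
and average over `ε` (A1): `|∑_Q ⟪(V W_q).1_q, e₀⟫ - η (log|Q|/2) ∑_Q (V W_q).2_q| ≤ K₂ √|Q| Av‖∑ ε W‖`
with `Av ‖∑ ε W‖ ≤ K₁ √k` (norm_zz); `∑_Q ‖W_q‖ ≤ √|Q| (∑‖W_q‖²)^{1/2} ≤ √|Q| Γ K₁ √k`. -/
def JobH1 : Prop := ∀ (I V Y : Type) [Fintype I] [DecidableEq I] [NormedAddCommGroup V]
    [InnerProductSpace ℝ V] [NormedAddCommGroup Y] [NormedSpace ℝ Y] (P : Prof I V)
    (U : XS P →ₗ[ℝ] Y) (W : Y →ₗ[ℝ] XS P) (K₁ K₂ Γ : ℝ), 0 < K₁ → 0 < K₂ → 0 ≤ Γ →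
    Bd U K₁ → Bd W K₂ → ∀ Q : Finset I, Q.Nonempty →
    (∑ q ∈ Q, ‖U (zz P (eb q))‖ ^ 2 ≤
      Γ ^ 2 * av (fun ε : I → Bool => ‖∑ q ∈ Q, sg (ε q) • U (zz P (eb q))‖ ^ 2)) →
    P.η * (Real.log Q.card / 2) * |∑ q ∈ Q, sn P (W (U (zz P (eb q)))) q| ≤
      K₁ * K₂ * (1 + Γ) * Fintype.card I

/-- H2: lower 2-estimate with constant `7` for few vectors in a twisted sum with small `c`.
Proof: `W_q = (y_q, x_q)`, `u_q = y_q - Ω x_q`, `S² = Av ‖∑ ε W‖²`; `∑ ‖x_q‖² = Av ‖∑ ε x‖² ≤ S²`;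
from (S) (`sS`), `‖Ω(∑ ε x) - ∑ ε Ω x‖ ≤ c (‖∑ ε x‖ + ∑ ‖x_q‖)`; hence
`‖∑ ε u‖ ≤ 2 ‖∑ ε W‖ + c ‖∑ ε x‖ + c ∑ ‖x_q‖`, `(∑ ‖x_q‖)² ≤ |Q| S²`;
`∑ ‖u_q‖² = Av ‖∑ ε u‖² ≤ 3 (4 + c² + c²|Q|) S² ≤ 18 S²`, `∑ ‖W_q‖² ≤ 2·18 S² + 2 S² ≤ 49 S²`. -/
def JobH2 : Prop := ∀ (J : Type) [Fintype J] [DecidableEq J] (I V : Type) [Fintype I]
    [NormedAddCommGroup V] [InnerProductSpace ℝ V] (P : Prof I V) (Q : Finset J) (W : J → XS P),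
    P.c ^ 2 * Q.card ≤ 1 →
    ∑ q ∈ Q, ‖W q‖ ^ 2 ≤ 7 ^ 2 * av (fun ε : J → Bool => ‖∑ q ∈ Q, sg (ε q) • W q‖ ^ 2)

/-- H3: lower 2-estimate with some constant in a finite-dimensional space.
(`X ≃L EuclideanSpace ℝ (Fin n)`.) -/
def JobH3 : Prop := ∀ (X : Type) [NormedAddCommGroup X] [NormedSpace ℝ X]
    [FiniteDimensional ℝ X], ∃ Γ : ℝ, 0 ≤ Γ ∧
    ∀ (J : Type) [Fintype J] [DecidableEq J] (Q : Finset J) (W : J → X),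
    ∑ q ∈ Q, ‖W q‖ ^ 2 ≤ Γ ^ 2 * av (fun ε : J → Bool => ‖∑ q ∈ Q, sg (ε q) • W q‖ ^ 2)

/-! ## Step 3 -/

/-- `E_t(q, p) = (T(Λ_t e_q, e_q)).1_p - (T(Λ_t e_q, e_q)).2_p φ_p(t)`,
where `Λ_t x = (x_q φ_q(t))_q`. -/
noncomputable def Lv {I V : Type} [Fintype I] [DecidableEq I] [NormedAddCommGroup V]
    [InnerProductSpace ℝ V] (P : Prof I V) (T : XS P →ₗ[ℝ] XS P) (t : ℝ) (q p : I) : V :=
  fs P (T (lev P (fun r => P.φ r t) (eb q))) p -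
    sn P (T (lev P (fun r => P.φ r t) (eb q))) p • P.φ p t

/-- F1: one level.
Proof: for `A ⊆ Q₁`, `|A| = a`, unit vectors `v_q`: `x = ∑_A ε_q e_q`, `w = ∑_A ε_q e_{π q} ⊗ v_q`,
`‖x‖ = ‖w‖ = √a`, `log √a = t`; `‖lev (φ t) x‖ ≤ √a` (`norm_lev_flat`), and by `Os_flat`
`tf (T (lev (φ t) x)) w = ∑_{q,q' ∈ A} ε_q ε_{q'} ⟪Lv t q' (π q), v_q⟫ ≤ K a`; average over `ε` (A1):
`∑_A ⟪Lv t q (π q), v_q⟫ ≤ K a`, with `v_q` = direction of `Lv`: `∑_A ‖Lv t q (π q)‖ ≤ K a`.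
Then choose `A ⊆ Q₁` with `|A| = a` and `a ∑_{Q₁} f ≤ |Q₁| ∑_A f` (remove smallest values). -/
def JobF1 : Prop := ∀ (I V : Type) [Fintype I] [DecidableEq I] [NormedAddCommGroup V]
    [InnerProductSpace ℝ V] (P : Prof I V) (T : XS P →ₗ[ℝ] XS P) (K : ℝ), 0 < K → Bd T K →
    ∀ (Q₁ : Finset I) (π : I → I), Set.InjOn π Q₁ → ∀ a : ℕ, 1 ≤ a → a ≤ Q₁.card →
    ∑ q ∈ Q₁, ‖Lv P T (Real.log a / 2) q (π q)‖ ≤ K * Q₁.card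

/-- values of the profiles at the levels `jβ`: `h j e₀ + [j = 2r+1] h e_{s r}` -/
noncomputable def pv {V : Type} [NormedAddCommGroup V] [InnerProductSpace ℝ V] {M : ℕ}
    (h : ℝ) (e₀ : V) (e : Fin M → V) (s : ℕ → Fin M) (j : ℕ) : V :=
  (h * j) • e₀ + (if Odd j then h • e (s (j / 2)) else 0)

/-- the code property: `s' r = f (s r)` for at most `l` of the `r < 4l`. -/
def Code {M : ℕ} (l : ℕ) (s s' : ℕ → Fin M) : Prop :=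
  ∀ f : Fin M → Fin M, ((range (4 * l)).filter fun r => s' r = f (s r)).card ≤ l

/-- E1: single pair analysis.  With `R = 4l`, `f₀(r) = ⟪e₀, E(2r)⟫` is quadratic in `r < R`
with leading coefficient `-4h²c(e₀)`: second differences with step `l`, summed over `r < 2l`, give
`|c e₀| h² l² ≤ B`.  `E(2r+1) - (E(2r)+E(2r+2))/2`, `r = l..R-2`, has `e₀`-component
`h⟪e₀, a e_s⟫ - h²(2r+1) c(e_s) + h² c(e₀)`, whence `h ∑_r |c(e_{s r})| ≤ 2K + 4B/h`; its component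
orthogonal to `e₀` is `h (a e_s)_⊥ - (D + h(2r+1)c(e₀) + h c(e_s)) h e_{s'}`, whence
`∑_{r=l}^{R-2} ‖(a e_{s r})_⊥ - D e_{s' r}‖ ≤ 4Bl/h + 20B/h + 2K`.  Let `f s` = the `s'` minimising
`‖(a e_s)_⊥ - D e_{s'}‖`: if `s' r ≠ f (s r)` then the term is `≥ |D|/√2`; there are `≥ 2l-1 ≥ l` such `r`:
`|D| ≤ √2 (4B/h + (20B/h + 2K)/l)`. -/
def JobE1 : Prop := ∀ (V : Type) [NormedAddCommGroup V] [InnerProductSpace ℝ V] (M l : ℕ)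
    (h K B : ℝ), 1 ≤ l → 0 < h → 0 ≤ K → 0 ≤ B →
    ∀ (e₀ : V) (e : Fin M → V), ‖e₀‖ = 1 → (∀ s, ‖e s‖ = 1) → (∀ s, ⟪e₀, e s⟫ = 0) →
    (∀ s s', s ≠ s' → ⟪e s, e s'⟫ = 0) →
    ∀ (a : V →ₗ[ℝ] V) (c : V →ₗ[ℝ] ℝ) (b : V) (D : ℝ), (∀ v, ‖a v‖ ≤ K * ‖v‖) →
    (∀ v, |c v| ≤ K * ‖v‖) → ∀ s s' : ℕ → Fin M, Code l s s' →
    ∑ j ∈ range (8 * l - 1), ‖a (pv h e₀ e s j) + b -
      (D + c (pv h e₀ e s j)) • pv h e₀ e s' j‖ ≤ B * (4 * l) →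
    |D + c ((h * (8 * l)) • e₀)| ≤ 8 * B / h + (100 * B / h + 10 * K) / l

/-- E2: existence of codes.  Union bound: for `p ≠ q`, `f`, and a set of `l+1` values `r`, the
proportion of bad `s` is `M^{-(l+1)}`; total `≤ κ^{16l} M^M 2^{4l} M^{-l} < 1` for
`M = (4 κ^4)^4 = 256 κ^16` and `l` large. -/
def JobE2 : Prop := ∀ κ : ℕ, 2 ≤ κ → ∃ M l₀ : ℕ, ∀ l ≥ l₀,
  ∃ s : Fin (κ ^ (8 * l)) → ℕ → Fin M, ∀ p q, p ≠ q → Code l (s q) (s p)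

/-- C: the concrete profile: `φ_q(t) = η t e₀ + η ∑_{r<4l} tent(t - (2r+1)β) e_{s_q(r)}`,
`β = log κ / 2`, `tent u = max 0 (β - |u|)`; Lipschitz constant `3η` (at most one tent is nonzero at
any time, so `∑_r |T_r(t) - T_r(u)| ≤ 2|t-u|`), and top: `log k / 2 = 8lβ`. -/
def JobC : Prop := ∀ (κ l M : ℕ) (η : ℝ), 2 ≤ κ → 1 ≤ l → 0 < η → η ≤ 1 / 3 →
  ∀ s : Fin (κ ^ (8 * l)) → ℕ → Fin M,
  ∃ P : Prof (Fin (κ ^ (8 * l))) (EuclideanSpace ℝ (Option (Fin M))),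
    P.η = η ∧ P.c = 3 * η ∧ P.e₀ = EuclideanSpace.single none 1 ∧
    ∀ q, ∀ j ≤ 8 * l, P.φ q (j * (Real.log κ / 2)) =
      pv (η * (Real.log κ / 2)) (EuclideanSpace.single none 1)
        (fun i => EuclideanSpace.single (some i) 1) (s q) j

/-- MA: maximal matchings. -/
def JobMA : Prop := ∀ (I : Type) [Fintype I] [DecidableEq I] (bad : I → I → Prop),
  ∃ (Q₁ : Finset I) (π : I → I), Set.InjOn π Q₁ ∧ (∀ q ∈ Q₁, π q ≠ q ∧ bad (π q) q) ∧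
    ∀ q ∉ Q₁, ∀ p, p ≠ q → bad p q → p ∈ Q₁.image π

/-- F2: Step 3.  (From F1, E1 with `B = 2K`; `κ^j ≤ |Q₁|` for `j ≤ 8l - 2`; pick one `q ∈ Q₁` with
`∑_{j<8l-1} ‖Lv_j q (π q)‖ ≤ K (8l-1)`; by linearity `T(Λ_t e_q, e_q) = T(e_q ⊗ φ_q(t), 0) + T(0, e_q)`
where the first one has norm `≤ K‖φ_q(t)‖`; `a v = (T(e_q⊗v,0)).1_p` has norm `≤ K` by testing with
`e_p ⊗ u` (`Os = 0`), `c v = (T(e_q⊗v,0)).2_p`.) -/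
def JobF2 : Prop := ∀ (κ l M : ℕ) (η K : ℝ), 2 ≤ κ → 1 ≤ l → 0 < η → 0 < K →
  ∀ (s : Fin (κ ^ (8 * l)) → ℕ → Fin M), (∀ p q, p ≠ q → Code l (s q) (s p)) →
  ∀ P : Prof (Fin (κ ^ (8 * l))) (EuclideanSpace ℝ (Option (Fin M))), P.η = η →
    P.e₀ = EuclideanSpace.single none 1 →
    (∀ q, ∀ j ≤ 8 * l, P.φ q (j * (Real.log κ / 2)) =
      pv (η * (Real.log κ / 2)) (EuclideanSpace.single none 1)
        (fun i => EuclideanSpace.single (some i) 1) (s q) j) →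
  ∀ T : XS P →ₗ[ℝ] XS P, Bd T K → ∀ (Q₁ : Finset (Fin (κ ^ (8 * l)))) (π : _ → _),
    Set.InjOn π Q₁ → (∀ q ∈ Q₁, π q ≠ q) → κ ^ (8 * l) ≤ κ ^ 2 * Q₁.card → Q₁.Nonempty →
    ∃ q ∈ Q₁, |Dm P T (π q) q| ≤ 16 * K / (η * (Real.log κ / 2)) +
      (200 * K / (η * (Real.log κ / 2)) + 10 * K) / l

/-! ## The main gadget -/

/-- the property of a gadget used in the end -/
def MGp {I V : Type} [Fintype I] [DecidableEq I] [NormedAddCommGroup V] [InnerProductSpace ℝ V]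
    (P : Prof I V) (K : ℝ) : Prop :=
  ∀ T : XS P →ₗ[ℝ] XS P, Bd T K → ∃ Q : Finset I, Fintype.card I ≤ 2 * Q.card ∧
    -(Fintype.card I / 8 : ℝ) ≤ ∑ q ∈ Q, sn P (T (T (zz P (eb q)))) q

/-- MG: gadgets exist. -/
def JobMG : Prop := ∀ K η : ℝ, 1 ≤ K → 0 < η → η ≤ 1 / 3 → ∃ κ M l₀ : ℕ, 2 ≤ κ ∧ ∀ l ≥ l₀,
  ∃ P : Prof (Fin (κ ^ (8 * l))) (EuclideanSpace ℝ (Option (Fin M))),
    P.η = η ∧ P.c = 3 * η ∧ MGp P K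

end Pool.Agent.V5helper68.CS
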