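import Pool.Agent.V5helper68.CS.Jobs

set_option autoImplicit false

open scoped RealInnerProductSpace
open Finset Filter

namespace Pool.Agent.V5helper68.CS

theorem kappa_exists (K η ρ δ : ℝ) (hη : 0 < η) (hρ : 0 < ρ) (hδ : 0 < δ) :
    ∃ κ : ℕ, 4 ≤ κ ∧ 2 * K / κ ≤ δ / 32 ∧ 16 * K / (η * (Real.log κ / 2)) ≤ ρ / 2 := by
  have h1 : Tendsto (fun κ : ℕ => 2 * K / (κ : ℝ)) atTop (nhds 0) :=
    tendsto_const_nhds.div_atTop tendsto_natCast_atTop_atTop
  have hlog : Tendsto (fun κ : ℕ => η * (Real.log (κ : ℝ) / 2)) atTop atTop := by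
    have h2 : Tendsto (fun κ : ℕ => Real.log (κ : ℝ)) atTop atTop :=
      Real.tendsto_log_atTop.comp tendsto_natCast_atTop_atTop
    exact (h2.atTop_div_const (by norm_num)).const_mul_atTop hη
  have h2 : Tendsto (fun κ : ℕ => 16 * K / (η * (Real.log (κ : ℝ) / 2))) atTop (nhds 0) :=
    tendsto_const_nhds.div_atTop hlog
  have e1 := h1.eventually (ge_mem_nhds (show (0 : ℝ) < δ / 32 by positivity))
  have e2 := h2.eventually (ge_mem_nhds (show (0 : ℝ) < ρ / 2 by positivity))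
  obtain ⟨κ, h⟩ := ((eventually_ge_atTop 4).and (e1.and e2)).exists
  exact ⟨κ, h.1, h.2.1, h.2.2⟩

theorem l_exists (A B C ρ : ℝ) (hρ : 0 < ρ) (hB : 0 < B) :
    ∃ l₀ : ℕ, 1 ≤ l₀ ∧ ∀ l : ℕ, l₀ ≤ l → A / l < ρ / 2 ∧ C ≤ 8 * l * B := by
  have h1 : Tendsto (fun l : ℕ => A / (l : ℝ)) atTop (nhds 0) :=
    tendsto_const_nhds.div_atTop tendsto_natCast_atTop_atTop
  have h2 : Tendsto (fun l : ℕ => 8 * (l : ℝ) * B) atTop atTop := by
    have h3 : Tendsto (fun l : ℕ => (8 * B) * (l : ℝ)) atTop atTop :=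
      tendsto_natCast_atTop_atTop.const_mul_atTop (by positivity)
    refine h3.congr fun l => by ring
  have e1 := h1.eventually (gt_mem_nhds (show (0 : ℝ) < ρ / 2 by positivity))
  have e2 := h2.eventually (eventually_ge_atTop C)
  obtain ⟨l₀, h⟩ := (eventually_atTop.mp ((eventually_ge_atTop 1).and (e1.and e2)))
  exact ⟨max l₀ 1, le_max_right _ _, fun l hl => (h l ((le_max_left _ _).trans hl)).2⟩

theorem sqrt_add_le_add {a b : ℝ} (ha : 0 ≤ a) (hb : 0 ≤ b) :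
    Real.sqrt (a + b) ≤ Real.sqrt a + Real.sqrt b := by
  rw [Real.sqrt_le_left (by positivity)]
  nlinarith [Real.sq_sqrt ha, Real.sq_sqrt hb, Real.sqrt_nonneg a, Real.sqrt_nonneg b,
    mul_nonneg (Real.sqrt_nonneg a) (Real.sqrt_nonneg b)]

theorem mg_core (hD2 : JobD2) (hD3 : JobD3) (hG1 : JobG1) (hMA : JobMA)
    {I V : Type} [Fintype I] [DecidableEq I] [NormedAddCommGroup V] [InnerProductSpace ℝ V]
    [FiniteDimensional ℝ V] (P : Prof I V) (T : XS P →ₗ[ℝ] XS P) (K δ ρ : ℝ) (κ : ℕ)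
    (hK : 1 ≤ K) (hδ : 0 < δ) (hKδ : K * δ = 1 / 16) (hκ4 : 4 ≤ κ) (hκ1 : 2 * K / κ ≤ δ / 32)
    (hlam256 : 256 * K ^ 2 ≤ lam P) (hT : Bd T K) (hI : 0 < Fintype.card I)
    (hD1'' : ∑ q, Real.sqrt (∑ p with |Dm P T p q| ≤ ρ, Dm P T p q ^ 2) ≤ δ / 32 * Fintype.card I)
    (hF : ∀ (Q₁ : Finset I) (π : I → I), Set.InjOn π Q₁ →
      (∀ q ∈ Q₁, π q ≠ q ∧ ρ < |Dm P T (π q) q|) → κ ^ 2 * Q₁.card < Fintype.card I) :
    ∃ Q : Finset I, Fintype.card I ≤ 2 * Q.card ∧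
    -(Fintype.card I / 8 : ℝ) ≤ ∑ q ∈ Q, sn P (T (T (zz P (eb q)))) q := by
  have hK0 : 0 < K := by linarith
  have hκ0 : (0 : ℝ) < κ := by exact_mod_cast (show 0 < κ by omega)
  have hlam0 : 0 < lam P := by nlinarith
  have hD2'' := fun P₁ => hD2 I V P T K hK0 hT P₁
  have hD3'' := hD3 I V P T K hK0 hT
  have hG1' := fun Q => hG1 I V P T K δ hK hδ hlam0 hT Q
  obtain ⟨Q₁, π, hinj, hbad, hmax⟩ := hMA I (fun p q => ρ < |Dm P T p q|)
  have hQ₁ := hF Q₁ π hinj hbad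
  have hcard : Fintype.card I = Fintype.card I := rfl
  generalize hk : Fintype.card I = k at *
  have hkR : (0 : ℝ) < k := by exact_mod_cast hI
  set P₁ := Q₁.image π with hP₁
  have hP₁c : P₁.card ≤ Q₁.card := Finset.card_image_le
  have hQ₁R : (κ : ℝ) ^ 2 * Q₁.card ≤ k := by exact_mod_cast hQ₁.le
  -- the off-diagonal masses
  set r : I → ℝ := fun q => Real.sqrt (∑ p ∈ univ.erase q, Dm P T p q ^ 2) with hr
  have hr1 : ∀ q, q ∉ Q₁ → r q ≤ Real.sqrt (∑ p with |Dm P T p q| ≤ ρ, Dm P T p q ^ 2) +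
      Real.sqrt (∑ p ∈ P₁, Dm P T p q ^ 2) := by
    intro q hq
    have h1 : ∑ p ∈ univ.erase q, Dm P T p q ^ 2 ≤
        (∑ p with |Dm P T p q| ≤ ρ, Dm P T p q ^ 2) + ∑ p ∈ P₁, Dm P T p q ^ 2 := by
      have hsub : univ.erase q ⊆ (univ.filter fun p => |Dm P T p q| ≤ ρ) ∪ P₁ := by
        intro p hp
        rw [Finset.mem_erase] at hp
        rw [Finset.mem_union, Finset.mem_filter]
        by_cases h : |Dm P T p q| ≤ ρ
        · exact Or.inl ⟨Finset.mem_univ _, h⟩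
        · exact Or.inr (hmax q hq p hp.1 (not_le.mp h))
      refine (Finset.sum_le_sum_of_subset_of_nonneg hsub fun _ _ _ => sq_nonneg _).trans ?_
      rw [← Finset.sum_union_inter]
      have : 0 ≤ ∑ p ∈ (univ.filter fun p => |Dm P T p q| ≤ ρ) ∩ P₁, Dm P T p q ^ 2 :=
        Finset.sum_nonneg fun _ _ => sq_nonneg _
      linarith
    refine (Real.sqrt_le_sqrt h1).trans ?_
    exact sqrt_add_le_add (Finset.sum_nonneg fun _ _ => sq_nonneg _)
      (Finset.sum_nonneg fun _ _ => sq_nonneg _)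
  have hD2'' := hD2'' P₁
  have hrow : 2 * K * Real.sqrt ((k : ℝ) * P₁.card) ≤ δ / 32 * k := by
    have h1 : (k : ℝ) * P₁.card ≤ (k / κ) ^ 2 := by
      have h2 : (P₁.card : ℝ) ≤ Q₁.card := by exact_mod_cast hP₁c
      rw [div_pow, le_div_iff₀ (by positivity)]
      have h3 : (k : ℝ) * P₁.card * κ ^ 2 ≤ k * (κ ^ 2 * Q₁.card) := by
        have := mul_le_mul_of_nonneg_left h2 (show (0 : ℝ) ≤ k * κ ^ 2 by positivity)
        nlinarith
      nlinarith [mul_le_mul_of_nonneg_left hQ₁R hkR.le]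
    have h2 : Real.sqrt ((k : ℝ) * P₁.card) ≤ k / κ := by
      refine (Real.sqrt_le_sqrt h1).trans ?_
      rw [Real.sqrt_sq (by positivity)]
    calc 2 * K * Real.sqrt ((k : ℝ) * P₁.card) ≤ 2 * K * (k / κ) :=
          mul_le_mul_of_nonneg_left h2 (by positivity)
      _ = 2 * K / κ * k := by ring
      _ ≤ δ / 32 * k := mul_le_mul_of_nonneg_right hκ1 hkR.le
  have hsum : ∑ q ∈ univ.filter (fun q => q ∉ Q₁), r q ≤ δ / 16 * k := by
    calc ∑ q ∈ univ.filter (fun q => q ∉ Q₁), r q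
        ≤ ∑ q ∈ univ.filter (fun q => q ∉ Q₁),
            (Real.sqrt (∑ p with |Dm P T p q| ≤ ρ, Dm P T p q ^ 2) +
              Real.sqrt (∑ p ∈ P₁, Dm P T p q ^ 2)) := by
          refine Finset.sum_le_sum fun q hq => hr1 q ?_
          exact (Finset.mem_filter.mp hq).2
      _ ≤ ∑ q, (Real.sqrt (∑ p with |Dm P T p q| ≤ ρ, Dm P T p q ^ 2) +
              Real.sqrt (∑ p ∈ P₁, Dm P T p q ^ 2)) :=
          Finset.sum_le_sum_of_subset_of_nonneg (Finset.filter_subset _ _)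
            fun _ _ _ => by positivity
      _ ≤ δ / 16 * k := by
          rw [Finset.sum_add_distrib]; linarith
  -- bad columns
  set B₁ := univ.filter (fun q => q ∉ Q₁ ∧ δ < r q) with hB₁
  set B₂ := univ.filter (fun q : I => 3 * K < |Dm P T q q|) with hB₂
  have hB₁c : (B₁.card : ℝ) ≤ k / 16 := by
    have h1 : (B₁.card : ℝ) * δ ≤ ∑ q ∈ univ.filter (fun q => q ∉ Q₁), r q := by
      calc (B₁.card : ℝ) * δ = ∑ q ∈ B₁, δ := by rw [Finset.sum_const, nsmul_eq_mul]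
        _ ≤ ∑ q ∈ B₁, r q := Finset.sum_le_sum fun q hq => (Finset.mem_filter.mp hq).2.2.le
        _ ≤ ∑ q ∈ univ.filter (fun q => q ∉ Q₁), r q := by
            refine Finset.sum_le_sum_of_subset_of_nonneg ?_ fun _ _ _ => Real.sqrt_nonneg _
            intro q hq
            rw [Finset.mem_filter] at hq ⊢
            exact ⟨hq.1, hq.2.1⟩
    have h2 := h1.trans hsum
    have h3 : (B₁.card : ℝ) * δ ≤ (k / 16) * δ := by linarith
    exact le_of_mul_le_mul_right h3 hδ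
  have hB₂c : (B₂.card : ℝ) ≤ k / 9 := by
    have h1 : (B₂.card : ℝ) * (9 * K ^ 2) ≤ K ^ 2 * k := by
      calc (B₂.card : ℝ) * (9 * K ^ 2) = ∑ q ∈ B₂, (9 * K ^ 2) := by
            rw [Finset.sum_const, nsmul_eq_mul]
        _ ≤ ∑ q ∈ B₂, ∑ p, Dm P T p q ^ 2 := by
            refine Finset.sum_le_sum fun q hq => ?_
            have h2 := (Finset.mem_filter.mp hq).2
            have h3 : 9 * K ^ 2 ≤ Dm P T q q ^ 2 := by
              rw [← sq_abs (Dm P T q q)]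
              nlinarith
            exact h3.trans (Finset.single_le_sum (f := fun p => Dm P T p q ^ 2)
              (fun _ _ => sq_nonneg _) (Finset.mem_univ q))
        _ ≤ ∑ q, ∑ p, Dm P T p q ^ 2 :=
            Finset.sum_le_sum_of_subset_of_nonneg (Finset.filter_subset _ _)
              fun _ _ _ => Finset.sum_nonneg fun _ _ => sq_nonneg _
        _ ≤ K ^ 2 * k := hD3''
    have hK2 : 0 < K ^ 2 := by positivity
    have h3 : (B₂.card : ℝ) * K ^ 2 ≤ (k / 9) * K ^ 2 := by linarith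
    exact le_of_mul_le_mul_right h3 hK2
  have hQ₁c : (Q₁.card : ℝ) ≤ k / 16 := by
    have h1 : (16 : ℝ) ≤ (κ : ℝ) ^ 2 := by
      have : (4 : ℝ) ≤ κ := by exact_mod_cast hκ4
      nlinarith
    have h2 : 16 * (Q₁.card : ℝ) ≤ (κ : ℝ) ^ 2 * Q₁.card :=
      mul_le_mul_of_nonneg_right h1 (by positivity)
    linarith
  set Q := univ.filter (fun q => q ∉ Q₁ ∧ r q ≤ δ ∧ |Dm P T q q| ≤ 3 * K) with hQ
  have hcover : (univ : Finset I) ⊆ Q ∪ (Q₁ ∪ (B₁ ∪ B₂)) := by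
    intro q _
    simp only [Finset.mem_union, hQ, hB₁, hB₂, Finset.mem_filter, Finset.mem_univ, true_and]
    by_cases h1 : q ∈ Q₁
    · exact Or.inr (Or.inl h1)
    by_cases h2 : r q ≤ δ
    · by_cases h3 : |Dm P T q q| ≤ 3 * K
      · exact Or.inl ⟨h1, h2, h3⟩
      · exact Or.inr (Or.inr (Or.inr (not_le.mp h3)))
    · exact Or.inr (Or.inr (Or.inl ⟨h1, not_le.mp h2⟩))
  have hQc : (k : ℝ) ≤ 2 * Q.card := by
    have h1 : k ≤ Q.card + (Q₁.card + (B₁.card + B₂.card)) := by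
      have := Finset.card_le_card hcover
      rw [Finset.card_univ, hk] at this
      refine this.trans ((Finset.card_union_le _ _).trans ?_)
      gcongr
      refine (Finset.card_union_le _ _).trans ?_
      gcongr
      exact Finset.card_union_le _ _
    have h2 : (k : ℝ) ≤ Q.card + (Q₁.card + (B₁.card + B₂.card)) := by exact_mod_cast h1
    linarith
  refine ⟨Q, ?_, ?_⟩
  · exact_mod_cast hQc
  · have h1 := hG1' Q (fun q hq => ?_) (fun q hq => ?_)
    · refine le_trans ?_ h1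
      have h3 : 16 * K ^ 2 / lam P ≤ 1 / 16 := by
        rw [div_le_div_iff₀ hlam0 (by norm_num)]; linarith
      have h4 : (K * δ + 16 * K ^ 2 / lam P) * k ≤ (1 / 8) * k :=
        mul_le_mul_of_nonneg_right (by rw [hKδ]; linarith) hkR.le
      linarith
    · have h2 := (Finset.mem_filter.mp hq).2.2.1
      rw [hr] at h2
      exact (Real.sqrt_le_left hδ.le).mp h2
    · exact (Finset.mem_filter.mp hq).2.2.2

theorem jobMG (hD1 : JobD1) (hD2 : JobD2) (hD3 : JobD3) (hG1 : JobG1) (hMA : JobMA)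
    (hF2 : JobF2) (hE2 : JobE2) (hC : JobC) : JobMG := by
  intro K η hK hη hη3
  have hK0 : 0 < K := by linarith
  set δ : ℝ := 1 / (16 * K) with hδd
  have hδ : 0 < δ := by positivity
  obtain ⟨ρ, hρ, hD1'⟩ := hD1 K η (δ / 32) hK0 hη (by positivity)
  obtain ⟨κ, hκ4, hκ1, hκ2⟩ := kappa_exists K η ρ δ hη hρ hδ
  obtain ⟨M, l₁, hl₁⟩ := hE2 κ (by omega)
  have hκ0 : (0 : ℝ) < κ := by exact_mod_cast (show 0 < κ by omega)
  have hlogκ : 0 < Real.log (κ : ℝ) := Real.log_pos (by exact_mod_cast (show 1 < κ by omega))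
  have hh : 0 < η * (Real.log κ / 2) := by positivity
  obtain ⟨l₂, hl₂1, hl₂⟩ := l_exists
    (200 * K / (η * (Real.log κ / 2)) + 10 * K) (η * (Real.log κ / 2)) (256 * K ^ 2) ρ hρ hh
  refine ⟨κ, M, max l₁ l₂, by omega, fun l hl => ?_⟩
  have hll₁ : l₁ ≤ l := (le_max_left _ _).trans hl
  have hll₂ : l₂ ≤ l := (le_max_right _ _).trans hl
  obtain ⟨s, hs⟩ := hl₁ l hll₁
  obtain ⟨hlA, hlB⟩ := hl₂ l hll₂
  have hl1 : 1 ≤ l := hl₂1.trans hll₂
  obtain ⟨P, hPη, hPc, hPe, hPv⟩ := hC κ l M η (by omega) hl1 hη hη3 s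
  refine ⟨P, hPη, hPc, fun T hT => ?_⟩
  have hcard : Fintype.card (Fin (κ ^ (8 * l))) = κ ^ (8 * l) := Fintype.card_fin _
  have hk0 : 0 < κ ^ (8 * l) := by positivity
  have hlam : lam P = 8 * l * (η * (Real.log κ / 2)) := by
    rw [lam, hPη, hcard]
    push_cast
    rw [Real.log_pow]
    push_cast
    ring
  refine mg_core hD2 hD3 hG1 hMA P T K δ ρ κ hK hδ (by rw [hδd]; field_simp) hκ4 hκ1
    (by rw [hlam]; exact hlB) hT (by rw [hcard]; exact hk0) (hD1' _ _ P T hPη hT) ?_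
  intro Q₁ π hinj hbad
  rw [hcard]
  by_contra hcon
  push Not at hcon
  have hne : Q₁.Nonempty := by
    rw [← Finset.card_pos]
    rcases Nat.eq_zero_or_pos Q₁.card with h | h
    · rw [h] at hcon; omega
    · exact h
  obtain ⟨q, hq, hq2⟩ := hF2 κ l M η K (by omega) hl1 hη hK0 s hs P hPη hPe hPv T hT Q₁ π hinj
    (fun q hq => (hbad q hq).1) hcon hne
  have := (hbad q hq).2
  linarith

end Pool.Agent.V5helper68.CS
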